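import Pool.Agent.Helper974.StarQ.StarG
import Pool.Agent.Helper974.Star.F2

set_option autoImplicit false

open Set

namespace Pool.Agent.Helper974.StarQ.Star

open Pool.Agent.Helper974.Star

lemma lc_iff (a b : ℝ) : Lc a b = 4 * xx a b ↔ TT a b = a + b + cc a b := by
  unfold Lc xx
  constructor <;> intro h <;> linarith

/-- all inputs of the final assembly -/
theorem inputs : ∃ kb t1 : ℝ, 0 < kb ∧ kb < 1 ∧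
    (∀ k ∈ Ioo (0 : ℝ) kb, qq k (-k) < k * Real.sqrt (1 - k ^ 2)) ∧
    (∀ k ∈ Ioo kb 1, k * Real.sqrt (1 - k ^ 2) < qq k (-k)) ∧
    qq kb (-kb) = kb * Real.sqrt (1 - kb ^ 2) ∧
    Real.sqrt (1 - kb ^ 2) / kb < 383 / 1000 ∧
    10 / 33 < t1 ∧ t1 < 1 ∧ phi t1 = 0 ∧
    (∀ t ∈ Ioo (0 : ℝ) t1, 0 < phi t) ∧ (∀ t ∈ Ioo t1 1, phi t < 0) ∧
    1 / Real.sqrt (1 - kb ^ 2) < 1 / t1 ∧
    (∀ M, 1 < M → M ≤ 1 / Real.sqrt (1 - kb ^ 2) →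
      3 - 8 / M + 5 / M ^ 2 ≤ 1 - 1 / M ^ 2 ∧ HX M (1 - 1 / M ^ 2)) ∧
    (∀ M, 1 / Real.sqrt (1 - kb ^ 2) < M → M < 1 / t1 → ∃ a b : ℝ,
      (-1 < b ∧ b < a ∧ a < 1 ∧ a + b < 0 ∧ Lc a b = 4 * xx a b ∧ ll a b = Real.log M) ∧
      (∀ a' b' : ℝ, (-1 < b' ∧ b' < a' ∧ a' < 1 ∧ a' + b' < 0 ∧ Lc a' b' = 4 * xx a' b' ∧
        ll a' b' = Real.log M) → a' = a ∧ b' = b) ∧
      3 - 8 / M + 5 / M ^ 2 ≤ Vc a b + 2 * xx a b ^ 2 ∧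
      HX M (Vc a b + 2 * xx a b ^ 2)) ∧
    (∀ M, 1 / t1 ≤ M → HX M (3 - 8 / M + 5 / M ^ 2)) := by
  obtain ⟨kb, hk⟩ := ex_sym
  obtain ⟨t1, ht⟩ := ex_pick
  refine ⟨kb, t1, hk.k0, hk.k1, hk.lo, hk.hi, hk.eq, hk.bd, ht.gt0, ht.lt1, ht.eq, ht.lo, ht.hi,
    Mb_lt hk ht, ?_, ?_, ?_⟩
  · intro M h1 h2
    obtain ⟨h3, h4, -⟩ := reg1 hk h1 h2
    exact ⟨h3, h4⟩
  · intro M h1 h2
    obtain ⟨a, b, e1, e2, e3, e4, e5, e6, e7, e8, e9⟩ := reg2 hk ht h1 h2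
    refine ⟨a, b, ⟨e1, e2, e3, e4, (lc_iff a b).mpr e6, e5⟩, ?_, e8, e9⟩
    rintro a' b' ⟨f1, f2, f3, f4, f5, f6⟩
    exact e7 a' b' f1 f2 f3 f4 f6 ((lc_iff a' b').mp f5)
  · intro M h1
    exact reg3 hk ht h1

end Pool.Agent.Helper974.StarQ.Star
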