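import Pool.Agent.Helper974.StarQ.StarA

set_option autoImplicit false

open Filter Topology Set

namespace Pool.Agent.Helper974.StarQ.Star

open Pool.Agent.Helper974.StarQ.StarPoly

noncomputable section

/-- derivative of an implicitly defined function -/
theorem implicit_deriv {F : ℝ × ℝ → ℝ} {c : ℝ → ℝ} {α β η0 C : ℝ} (hF : HasFDerivAt F (LF α β) (c η0, η0))
    (hα : α ≠ 0) (hc : ContinuousAt c η0) (hconst : ∀ᶠ η in 𝓝 η0, F (c η, η) = C) :
    HasDerivAt c (-β / α) η0 := by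
  have hC : F (c η0, η0) = C := hconst.self_of_nhds
  have hα' : 0 < |α| := abs_pos.mpr hα
  have hcc : ContinuousAt (fun t => (c t, t)) η0 := hc.prodMk continuousAt_id
  have key : ∀ ε > 0, ∀ᶠ η in 𝓝 η0, |α * (c η - c η0) + β * (η - η0)| ≤ ε * (|c η - c η0| + |η - η0|) := by
    intro ε hε
    have h1 := (hasFDerivAt_iff_isLittleO.mp hF).bound hε
    have h2 := hcc.tendsto.eventually h1
    filter_upwards [h2, hconst] with η h3 h4
    rw [LF_apply] at h3
    simp only [Prod.fst_sub, Prod.snd_sub] at h3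
    rw [h4, hC, sub_self, zero_sub, norm_neg, Real.norm_eq_abs] at h3
    refine h3.trans ?_
    apply mul_le_mul_of_nonneg_left _ hε.le
    rw [Prod.norm_def]
    simp only [Prod.fst_sub, Prod.snd_sub, Real.norm_eq_abs]
    exact max_le (by linarith [abs_nonneg (η - η0)]) (by linarith [abs_nonneg (c η - c η0)])
  rw [hasDerivAt_iff_isLittleO, Asymptotics.isLittleO_iff]
  intro ε hε
  set C1 := 2 * (|α| / 2 + |β|) / |α| with hC1
  have hC10 : 0 ≤ C1 := by positivity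
  have hε1 : 0 < min (|α| / 2) (ε * |α| / (C1 + 1)) := lt_min (by positivity) (by positivity)
  filter_upwards [key _ hε1] with η hk
  set u := c η - c η0 with hu
  set v := η - η0 with hv
  have h5 : |α * u + β * v| ≤ |α| / 2 * (|u| + |v|) :=
    hk.trans (mul_le_mul_of_nonneg_right (min_le_left _ _) (by positivity))
  have h6 : |α * u| ≤ |α * u + β * v| + |β * v| := by
    have := abs_sub (α * u + β * v) (β * v)
    have e : α * u = (α * u + β * v) - β * v := by ring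
    calc |α * u| = |(α * u + β * v) - β * v| := by rw [← e]
      _ ≤ _ := abs_sub _ _
  rw [abs_mul] at h6
  rw [abs_mul β v] at h6
  have h7 : |u| ≤ C1 * |v| := by
    have : |α| / 2 * |u| ≤ (|α| / 2 + |β|) * |v| := by nlinarith [abs_nonneg u, abs_nonneg v]
    rw [hC1, div_mul_eq_mul_div, le_div_iff₀ hα']
    nlinarith
  have h8 : |α * u + β * v| ≤ ε * |α| / (C1 + 1) * (|u| + |v|) :=
    hk.trans (mul_le_mul_of_nonneg_right (min_le_right _ _) (by positivity))
  have h9 : |α * u + β * v| ≤ ε * |α| * |v| := by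
    refine h8.trans ?_
    have : |u| + |v| ≤ (C1 + 1) * |v| := by linarith
    calc ε * |α| / (C1 + 1) * (|u| + |v|) ≤ ε * |α| / (C1 + 1) * ((C1 + 1) * |v|) :=
          mul_le_mul_of_nonneg_left this (by positivity)
      _ = ε * |α| * |v| := by field_simp
  rw [Real.norm_eq_abs, Real.norm_eq_abs, smul_eq_mul]
  have e : u - v * (-β / α) = (α * u + β * v) / α := by field_simp; ring
  rw [e, abs_div, div_le_iff₀ hα']
  linarith

lemma sign_right {k : ℝ → ℝ} {d t : ℝ} (h : HasDerivAt k d t) (hd : 0 < d) (h0 : k t = 0) :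
    ∀ᶠ s in 𝓝[>] t, 0 < k s := by
  have h2 := h.tendsto_slope.eventually (lt_mem_nhds hd)
  have h3 : ∀ᶠ s in 𝓝[>] t, 0 < slope k t s :=
    (nhdsWithin_mono t (fun s hs => ne_of_gt hs : Ioi t ⊆ {t}ᶜ)) h2
  filter_upwards [h3, self_mem_nhdsWithin] with s hs hs2
  rw [slope_def_field, h0, sub_zero] at hs
  have : 0 < s - t := sub_pos.mpr hs2
  exact (div_pos_iff_of_pos_right this).mp hs

lemma sign_left {k : ℝ → ℝ} {d t : ℝ} (h : HasDerivAt k d t) (hd : 0 < d) (h0 : k t = 0) :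
    ∀ᶠ s in 𝓝[<] t, k s < 0 := by
  have h2 := h.tendsto_slope.eventually (lt_mem_nhds hd)
  have h3 : ∀ᶠ s in 𝓝[<] t, 0 < slope k t s :=
    (nhdsWithin_mono t (fun s hs => ne_of_lt hs : Iio t ⊆ {t}ᶜ)) h2
  filter_upwards [h3, self_mem_nhdsWithin] with s hs hs2
  rw [slope_def_field, h0, sub_zero] at hs
  have : s - t < 0 := sub_neg.mpr hs2
  rcases div_pos_iff.mp hs with h | h
  · linarith [h.2]
  · exact h.1

/-- a function whose zeros are all crossed upwards stays positive once it is nonnegative -/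
lemma stay_pos {k k' : ℝ → ℝ} {a : ℝ} (hd : ∀ t, a < t → HasDerivAt k (k' t) t)
    (hz : ∀ t, a < t → k t = 0 → 0 < k' t) {u v : ℝ} (hu : a < u) (huv : u < v) (hk : 0 ≤ k u) : 0 < k v := by
  by_contra hcon
  push Not at hcon
  -- right of `u` the function is positive
  have h1 : ∀ᶠ t in 𝓝[>] u, 0 < k t := by
    rcases hk.lt_or_eq with h | h
    · exact nhdsWithin_le_nhds ((hd u hu).continuousAt.eventually (lt_mem_nhds h))
    · exact sign_right (hd u hu) (hz u hu h.symm) h.symm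
  obtain ⟨w, hw, hw2⟩ := (mem_nhdsGT_iff_exists_Ioo_subset' huv).mp h1
  obtain ⟨u1, hu1⟩ : ∃ u1, u1 ∈ Ioo u (min w v) := exists_between (lt_min hw huv)
  have hu1v : u1 < v := hu1.2.trans_le (min_le_right _ _)
  have hk1 : 0 < k u1 := hw2 ⟨hu1.1, hu1.2.trans_le (min_le_left _ _)⟩
  -- the first zero after u1
  set S := {t | t ∈ Icc u1 v ∧ k t ≤ 0} with hS
  have hSne : S.Nonempty := ⟨v, ⟨hu1v.le, le_rfl⟩, hcon⟩
  have hSbd : BddBelow S := ⟨u1, fun t ht => ht.1.1⟩
  have hcont : ContinuousOn k (Icc u1 v) := fun t ht =>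
    (hd t (by linarith [hu1.1, ht.1])).continuousAt.continuousWithinAt
  have hSc : IsClosed S := by
    have := hcont.preimage_isClosed_of_isClosed isClosed_Icc (isClosed_Iic (a := (0 : ℝ)))
    have e : S = Icc u1 v ∩ k ⁻¹' Iic 0 := by
      ext t
      simp [hS]
    rw [e]; exact this
  have hm := hSc.csInf_mem hSne hSbd
  set t0 := sInf S with ht0
  have ht0u : u1 < t0 := by
    rcases hm.1.1.lt_or_eq with h | h
    · exact h
    · rw [← h] at hm; exact absurd hm.2 (not_le.mpr hk1)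
  have hbefore : ∀ t, u1 ≤ t → t < t0 → 0 < k t := by
    intro t h2 h3
    by_contra h4
    push Not at h4
    exact absurd (csInf_le hSbd (show t ∈ S from ⟨⟨h2, h3.le.trans hm.1.2⟩, h4⟩)) (not_le.mpr h3)
  have hat : a < t0 := by linarith [hu1.1]
  have hk0 : k t0 = 0 := by
    apply le_antisymm hm.2
    have h5 : Tendsto k (𝓝[<] t0) (𝓝 (k t0)) := (hd t0 hat).continuousAt.tendsto.mono_left nhdsWithin_le_nhds
    apply ge_of_tendsto h5
    filter_upwards [Ioo_mem_nhdsLT ht0u] with t ht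
    exact (hbefore t ht.1.le ht.2).le
  have h6 := sign_left (hd t0 hat) (hz t0 hat hk0) hk0
  have h7 : ∀ᶠ t in 𝓝[<] t0, 0 < k t := by
    filter_upwards [Ioo_mem_nhdsLT ht0u] with t ht
    exact hbefore t ht.1.le ht.2
  obtain ⟨t, ht⟩ := (h6.and h7).exists
  linarith [ht.1, ht.2]

variable {n r E X G l : ℝ × ℝ → ℝ}

/-- constraints at a critical point -/
structure Crit (s m e : ℝ) : Prop where
  s0 : 0 < s
  s1 : s < 1
  m0 : 0 < m
  m1 : m < 1 / 2
  e2 : 2 < e
  es : e * s < 2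
  z2 : zz s m e < 2
  zs : ∀ σ : ℝ, 0 < σ → σ ^ 2 = s → 2 * σ < zz s m e

lemma Sys.crit (h : Sys n r E X G l) {p : ℝ × ℝ} (hp : 0 < p.2) (hp1 : 0 < p.1) (hK : Kf n r E X G p = 0) :
    Crit (X p ^ 2) (mf n r X p) (ef n r E X G p) := by
  have hr0 := h.rpos p hp
  have hn0 := h.npos p hp hp1
  have hX0 := (h.Xpos p hp hp1).1
  have hX1 := (h.Xpos p hp hp1).2
  have hg0 := (h.Gpos p hp).1
  have h2 := h.two_sub hp hp1
  have h3 := h.e_gt hp hp1
  have h4 := h.zgt hp hp1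
  obtain ⟨hG, hZ, -, -⟩ := Kx_crit h hp hp1 hK rfl rfl rfl
  have hm0 : 0 < mf n r X p := by unfold mf; positivity
  have e3 : ef n r E X G p * X p ^ 2 = zf n r E X p - G p := by unfold ef; field_simp
  generalize mf n r X p = m at *
  generalize ef n r E X G p = e at *
  have he2 : 2 < e := by
    have : 2 * X p ^ 2 < e * X p ^ 2 := by rw [e3]; linarith
    exact lt_of_mul_lt_mul_right this (by positivity)
  have hes : e * X p ^ 2 < 2 := by rw [e3]; linarith
  refine ⟨by positivity, by nlinarith, hm0, ?_, he2, hes, by rw [← hZ]; linarith, ?_⟩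
  · have e5 : 2 - zf n r E X p - 3 * G p = 2 * (1 - 2 * m) * (1 - e * X p ^ 2 / 2) := by
      rw [hZ, hG]; unfold gg zz; ring
    rw [e5] at h2
    have h6 : 0 < 1 - e * X p ^ 2 / 2 := by linarith
    have h7 := (pos_iff_pos_of_mul_pos h2).mpr h6
    linarith
  · intro σ hσ hσ2
    have : σ = X p := by
      have := (sq_eq_sq₀ hσ.le hX0.le).mp hσ2
      exact this
    rw [this, ← hZ]; exact h4

lemma Crit.N_pos {s m e : ℝ} (h : Crit s m e) : 0 < NN s m e := by
  have h1 : 0 < 1 - e * s / 2 := by linarith [h.es]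
  have h2 : 0 < gg s m e := mul_pos h.m0 h1
  have e1 : NN s m e = (e - 2) * (2 + gg s m e) + (1 - e * s / 2) * (4 - 4 * m + 4 * m ^ 2) := by
    unfold NN gg; ring
  rw [e1]
  have h3 : 0 < 4 - 4 * m + 4 * m ^ 2 := by nlinarith [sq_nonneg (2 * m - 1)]
  have h4 := h.e2
  have : 0 < (e - 2) * (2 + gg s m e) := mul_pos (by linarith) (by linarith)
  positivity

lemma Sys.Kx_pos (h : Sys n r E X G l) {p : ℝ × ℝ} (hp : 0 < p.2) (hp1 : 0 < p.1) (hK : Kf n r E X G p = 0) :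
    0 < Kx n r E X G p := by
  obtain ⟨-, -, h1, -⟩ := Kx_crit h hp hp1 hK rfl rfl rfl
  rw [h1]
  have hc := h.crit hp hp1 hK
  have := hc.N_pos
  have := hc.m0
  have := hc.s0
  have := h.rpos p hp
  positivity

lemma Sys.line_pos (h : Sys n r E X G l) {η u v : ℝ} (hη : 0 < η) (hu : 0 < u) (huv : u < v)
    (hk : 0 ≤ Kf n r E X G (u, η)) : 0 < Kf n r E X G (v, η) :=
  stay_pos (k := fun t => Kf n r E X G (t, η)) (a := 0) (fun t _ => comp_line (h.dK (p := (t, η)) hη))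
    (fun t ht h0 => h.Kx_pos (p := (t, η)) hη ht h0) hu huv hk

/-- `y` on the axis -/
def y0 (r E G : ℝ × ℝ → ℝ) (η : ℝ) : ℝ := E (0, η) / (r (0, η) ^ 2 * G (0, η) ^ 2)

lemma Sys.near_neg (h : Sys n r E X G l) {η0 : ℝ} (h0 : 0 < η0) (hy : y0 r E G η0 < 1) :
    ∀ᶠ p in 𝓝[{p : ℝ × ℝ | 0 < p.1}] ((0 : ℝ), η0), Kf n r E X G p < 0 := by
  filter_upwards [(h.limy h0).eventually (gt_mem_nhds hy), memAxis h0] with p hp hp2
  rw [Kf_eq h hp2.2 hp2.1]
  have := h.rpos p hp2.2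
  have := (h.Gpos p hp2.2).1
  have := (h.Xpos p hp2.2 hp2.1).1
  have h3 : 0 < 2 * G p * r p * X p := by positivity
  exact mul_neg_of_pos_of_neg h3 (by linarith)

lemma Sys.near_pos (h : Sys n r E X G l) {η0 : ℝ} (h0 : 0 < η0) (hy : 1 < y0 r E G η0) :
    ∀ᶠ p in 𝓝[{p : ℝ × ℝ | 0 < p.1}] ((0 : ℝ), η0), 0 < Kf n r E X G p := by
  filter_upwards [(h.limy h0).eventually (lt_mem_nhds hy), memAxis h0] with p hp hp2
  rw [Kf_eq h hp2.2 hp2.1]
  have := h.rpos p hp2.2
  have := (h.Gpos p hp2.2).1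
  have := (h.Xpos p hp2.2 hp2.1).1
  have h3 : 0 < 2 * G p * r p * X p := by positivity
  exact mul_pos h3 (by linarith)

lemma tendsto_axis_line (η : ℝ) : Tendsto (fun t : ℝ => (t, η)) (𝓝[>] 0) (𝓝[{p : ℝ × ℝ | 0 < p.1}] ((0 : ℝ), η)) := by
  apply tendsto_nhdsWithin_of_tendsto_nhds_of_eventually_within
  · exact ((continuous_id.prodMk continuous_const).tendsto 0).mono_left nhdsWithin_le_nhds
  · filter_upwards [self_mem_nhdsWithin] with t ht using ht

lemma Sys.far_pos (h : Sys n r E X G l) {p : ℝ × ℝ} (hp : 0 < p.2) (hp1 : 0 < p.1) (hnr : 1 / 2 ≤ n p / r p) :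
    0 < Kf n r E X G p := by
  have hr0 := h.rpos p hp
  have hn0 := h.npos p hp hp1
  have hX0 := (h.Xpos p hp hp1).1
  have hX1 := (h.Xpos p hp hp1).2
  have hg0 := (h.Gpos p hp).1
  have hH := h.Hpos p hp hp1
  rw [le_div_iff₀ hr0] at hnr
  have h5 : G p * (r p * X p) < G p * (r p) := by
    apply mul_lt_mul_of_pos_left _ hg0; nlinarith
  unfold Kf
  nlinarith [mul_pos hg0 hn0]

/-- structure of the sign of `τ - x` -/
theorem Sys.stepA (h : Sys n r E X G l) {ηb : ℝ} (hb0 : 0 < ηb)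
    (hinf : ∀ η, 0 < η → Tendsto (fun ξ => n (ξ, η) / r (ξ, η)) atTop atTop)
    (hlt : ∀ η, 0 < η → η < ηb → 1 < y0 r E G η) (hgt : ∀ η, ηb < η → y0 r E G η < 1) :
    (∀ η, 0 < η → η ≤ ηb → ∀ ξ, 0 < ξ → 0 < Kf n r E X G (ξ, η)) ∧
    ∃ ξs : ℝ → ℝ, ∀ η, ηb < η → 0 < ξs η ∧ Kf n r E X G (ξs η, η) = 0 ∧
      (∀ ξ, 0 < ξ → ξ < ξs η → Kf n r E X G (ξ, η) < 0) ∧ (∀ ξ, ξs η < ξ → 0 < Kf n r E X G (ξ, η)) := by
  have hlow : ∀ η, 0 < η → η < ηb → ∀ ξ, 0 < ξ → 0 < Kf n r E X G (ξ, η) := by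
    intro η h1 h2 ξ hξ
    have h3 := (tendsto_axis_line η).eventually (h.near_pos h1 (hlt η h1 h2))
    obtain ⟨t, ht, ht2⟩ := (h3.and (Ioo_mem_nhdsGT hξ)).exists
    exact h.line_pos h1 ht2.1 ht2.2 ht.le
  refine ⟨?_, ?_⟩
  · intro η h1 h2 ξ hξ
    rcases h2.lt_or_eq with h2 | h2
    · exact hlow η h1 h2 ξ hξ
    · have h4 : ∀ t, 0 < t → 0 ≤ Kf n r E X G (t, η) := by
        intro t ht
        have hc : ContinuousAt (fun η' => Kf n r E X G (t, η')) η := by
          have := (h.dK (p := (t, η)) h1).continuousAt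
          exact ContinuousAt.comp (f := fun η' : ℝ => (t, η')) this (by fun_prop)
        have hT : Tendsto (fun η' => Kf n r E X G (t, η')) (𝓝[<] η) (𝓝 (Kf n r E X G (t, η))) :=
          hc.tendsto.mono_left nhdsWithin_le_nhds
        apply ge_of_tendsto hT
        filter_upwards [Ioo_mem_nhdsLT h1] with η' h5
        exact (hlow η' h5.1 (by rw [← h2]; exact h5.2) t ht).le
      exact h.line_pos h1 (half_pos hξ) (half_lt_self hξ) (h4 _ (half_pos hξ))
  · have hex : ∀ η, ηb < η → ∃ ξ, 0 < ξ ∧ Kf n r E X G (ξ, η) = 0 := by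
      intro η h1
      have hη : 0 < η := hb0.trans h1
      obtain ⟨u, hu, hu0⟩ := (((tendsto_axis_line η).eventually (h.near_neg hη (hgt η h1))).and
        (self_mem_nhdsWithin (a := (0 : ℝ)) (s := Ioi 0))).exists
      obtain ⟨v, hv, hv0⟩ := (((hinf η hη).eventually_ge_atTop (1 / 2)).and (eventually_gt_atTop u)).exists
      have hv1 : 0 < Kf n r E X G (v, η) := h.far_pos (p := (v, η)) hη (lt_trans hu0 hv0) hv
      have hcont : ContinuousOn (fun t => Kf n r E X G (t, η)) (Icc u v) := fun t _ =>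
        (comp_line (h.dK (p := (t, η)) hη)).continuousAt.continuousWithinAt
      obtain ⟨ξ, hξ, hξ0⟩ := intermediate_value_Icc hv0.le hcont ⟨hu.le, hv1.le⟩
      exact ⟨ξ, lt_of_lt_of_le hu0 hξ.1, hξ0⟩
    choose! ξs hs using hex
    refine ⟨ξs, fun η h1 => ?_⟩
    have hη : 0 < η := hb0.trans h1
    obtain ⟨h2, h3⟩ := hs η h1
    refine ⟨h2, h3, ?_, ?_⟩
    · intro ξ h4 h5
      by_contra hcon
      push Not at hcon
      have := h.line_pos hη h4 h5 hcon
      linarith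
    · intro ξ h4
      exact h.line_pos hη h2 h4 h3.ge

end

end Pool.Agent.Helper974.StarQ.Star
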