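import Pool.Agent.Helper974.StarQ.StarPoly1

set_option autoImplicit false
set_option maxHeartbeats 4000000

namespace Pool.Agent.Helper974.StarQ.StarPoly

noncomputable section

/-- `β`-slope expression whose sign decides the motion of `m - ℓ(s)` -/
def F2 (β s m e : ℝ) : ℝ :=
  NN s m e * (e * (1 + s) + 2 * m * (1 - e * s / 2) - 4 - 2 * β * KK s m e) -
    RR s m e * (e + 2 * m - 2 * β * (1 - e * s / 2))

lemma Rlo_0 {s m : ℝ} (h1 : 0 ≤ s) (h2 : s ≤ (1 / 8)) (h3 : 0 ≤ m) (h4 : m ≤ (3249 / 8000)) : (1 / 100) ≤ -RR s m (14 / 5) := by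
  obtain ⟨p, hp⟩ : ∃ p, p = s - 0 := ⟨_, rfl⟩
  obtain ⟨p', hp'⟩ : ∃ p', p' = (1 / 8) - s := ⟨_, rfl⟩
  obtain ⟨q, hq⟩ : ∃ q, q = m - 0 := ⟨_, rfl⟩
  obtain ⟨q', hq'⟩ : ∃ q', q' = (3249 / 8000) - m := ⟨_, rfl⟩
  have p0 : 0 ≤ p := by rw [hp]; linarith
  have p1 : 0 ≤ p' := by rw [hp']; linarith
  have q0 : 0 ≤ q := by rw [hq]; linarith
  have q1 : 0 ≤ q' := by rw [hq']; linarith
  have key : -RR s m (14 / 5) - (1 / 100) = (9789440000 / 10556001) * p' ^ 2 * q' ^ 2 + (24902041600 / 10556001) * p' ^ 2 * q * q' + (7005592832 / 10556001) * p' ^ 2 * q ^ 2 +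
      (573440000 / 390963) * p * p' * q' ^ 2 + (4667924480 / 1172889) * p * p' * q * q' + (6330754048 / 5864445) * p * p' * q ^ 2 +
      (2017280000 / 3518667) * p ^ 2 * q' ^ 2 + (5786767360 / 3518667) * p ^ 2 * q * q' + (1447167140 / 3518667) * p ^ 2 * q ^ 2 := by
    rw [hp, hp', hq, hq']; unfold RR gg zz; ring
  have : 0 ≤ -RR s m (14 / 5) - (1 / 100) := by rw [key]; positivity
  linarith

lemma Rlo_1 {s m : ℝ} (h1 : (1 / 8) ≤ s) (h2 : s ≤ (1 / 4)) (h3 : 0 ≤ m) (h4 : m ≤ (1717 / 4000)) : (1 / 100) ≤ -RR s m (14 / 5) := by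
  obtain ⟨p, hp⟩ : ∃ p, p = s - (1 / 8) := ⟨_, rfl⟩
  obtain ⟨p', hp'⟩ : ∃ p', p' = (1 / 4) - s := ⟨_, rfl⟩
  obtain ⟨q, hq⟩ : ∃ q, q = m - 0 := ⟨_, rfl⟩
  obtain ⟨q', hq'⟩ : ∃ q', q' = (1717 / 4000) - m := ⟨_, rfl⟩
  have p0 : 0 ≤ p := by rw [hp]; linarith
  have p1 : 0 ≤ p' := by rw [hp']; linarith
  have q0 : 0 ≤ q := by rw [hq]; linarith
  have q1 : 0 ≤ q' := by rw [hq']; linarith
  have key : -RR s m (14 / 5) - (1 / 100) = (1512960000 / 2948089) * p' ^ 2 * q' ^ 2 + (4414904320 / 2948089) * p' ^ 2 * q * q' + (956205580 / 2948089) * p' ^ 2 * q ^ 2 +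
      (2181120000 / 2948089) * p * p' * q' ^ 2 + (6999552000 / 2948089) * p * p' * q * q' + (6309287152 / 14740445) * p * p' * q ^ 2 +
      (757760000 / 2948089) * p ^ 2 * q' ^ 2 + (2640773120 / 2948089) * p ^ 2 * q * q' + (1443432944 / 14740445) * p ^ 2 * q ^ 2 := by
    rw [hp, hp', hq, hq']; unfold RR gg zz; ring
  have : 0 ≤ -RR s m (14 / 5) - (1 / 100) := by rw [key]; positivity
  linarith

lemma Rhi_0 {s m : ℝ} (h1 : 0 ≤ s) (h2 : s ≤ (1 / 16)) (h3 : 0 ≤ m) (h4 : m ≤ (1 / 10)) : (1 / 100) ≤ RR s m (41 / 10) := by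
  obtain ⟨p, hp⟩ : ∃ p, p = s - 0 := ⟨_, rfl⟩
  obtain ⟨p', hp'⟩ : ∃ p', p' = (1 / 16) - s := ⟨_, rfl⟩
  obtain ⟨q, hq⟩ : ∃ q, q = m - 0 := ⟨_, rfl⟩
  obtain ⟨q', hq'⟩ : ∃ q', q' = (1 / 10) - m := ⟨_, rfl⟩
  have p0 : 0 ≤ p := by rw [hp]; linarith
  have p1 : 0 ≤ p' := by rw [hp']; linarith
  have q0 : 0 ≤ q := by rw [hq]; linarith
  have q1 : 0 ≤ q' := by rw [hq']; linarith
  have key : RR s m (41 / 10) - (1 / 100) = 4864 * p' ^ 2 * q' ^ 2 + 4864 * p' ^ 2 * q * q' + 3072 * p' ^ 2 * q ^ 2 +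
      22528 * p * p' * q' ^ 2 + (181916 / 5) * p * p' * q * q' + (98348 / 5) * p * p' * q ^ 2 +
      16844 * p ^ 2 * q' ^ 2 + (120673 / 4) * p ^ 2 * q * q' + (321169 / 20) * p ^ 2 * q ^ 2 := by
    rw [hp, hp', hq, hq']; unfold RR gg zz; ring
  have : 0 ≤ RR s m (41 / 10) - (1 / 100) := by rw [key]; positivity
  linarith

lemma Rhi_1 {s m : ℝ} (h1 : 0 ≤ s) (h2 : s ≤ (1 / 16)) (h3 : (1 / 10) ≤ m) (h4 : m ≤ (2 / 5)) : (1 / 100) ≤ RR s m (41 / 10) := by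
  obtain ⟨p, hp⟩ : ∃ p, p = s - 0 := ⟨_, rfl⟩
  obtain ⟨p', hp'⟩ : ∃ p', p' = (1 / 16) - s := ⟨_, rfl⟩
  obtain ⟨q, hq⟩ : ∃ q, q = m - (1 / 10) := ⟨_, rfl⟩
  obtain ⟨q', hq'⟩ : ∃ q', q' = (2 / 5) - m := ⟨_, rfl⟩
  have p0 : 0 ≤ p := by rw [hp]; linarith
  have p1 : 0 ≤ p' := by rw [hp']; linarith
  have q0 : 0 ≤ q := by rw [hq]; linarith
  have q1 : 0 ≤ q' := by rw [hq']; linarith
  have key : RR s m (41 / 10) - (1 / 100) = (1024 / 3) * p' ^ 2 * q' ^ 2 + (3328 / 3) * p' ^ 2 * q * q' + 3840 * p' ^ 2 * q ^ 2 +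
      (98348 / 45) * p * p' * q' ^ 2 + (241036 / 45) * p * p' * q * q' + (404336 / 45) * p * p' * q ^ 2 +
      (321169 / 180) * p ^ 2 * q' ^ 2 + (759257 / 180) * p ^ 2 * q * q' + (232561 / 45) * p ^ 2 * q ^ 2 := by
    rw [hp, hp', hq, hq']; unfold RR gg zz; ring
  have : 0 ≤ RR s m (41 / 10) - (1 / 100) := by rw [key]; positivity
  linarith

lemma Rhi_2 {s m : ℝ} (h1 : (1 / 16) ≤ s) (h2 : s ≤ (1 / 4)) (h3 : 0 ≤ m) (h4 : m ≤ (1 / 5)) : (1 / 100) ≤ RR s m (41 / 10) := by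
  obtain ⟨p, hp⟩ : ∃ p, p = s - (1 / 16) := ⟨_, rfl⟩
  obtain ⟨p', hp'⟩ : ∃ p', p' = (1 / 4) - s := ⟨_, rfl⟩
  obtain ⟨q, hq⟩ : ∃ q, q = m - 0 := ⟨_, rfl⟩
  obtain ⟨q', hq'⟩ : ∃ q', q' = (1 / 5) - m := ⟨_, rfl⟩
  have p0 : 0 ≤ p := by rw [hp]; linarith
  have p1 : 0 ≤ p' := by rw [hp']; linarith
  have q0 : 0 ≤ q := by rw [hq]; linarith
  have q1 : 0 ≤ q' := by rw [hq']; linarith
  have key : RR s m (41 / 10) - (1 / 100) = (4211 / 9) * p' ^ 2 * q' ^ 2 + (53297 / 72) * p' ^ 2 * q * q' + (207413 / 360) * p' ^ 2 * q ^ 2 +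
      (16792 / 9) * p * p' * q' ^ 2 + (162571 / 45) * p * p' * q * q' + (100763 / 45) * p * p' * q ^ 2 +
      (10736 / 9) * p ^ 2 * q' ^ 2 + (117314 / 45) * p ^ 2 * q * q' + (71746 / 45) * p ^ 2 * q ^ 2 := by
    rw [hp, hp', hq, hq']; unfold RR gg zz; ring
  have : 0 ≤ RR s m (41 / 10) - (1 / 100) := by rw [key]; positivity
  linarith

lemma Rhi_3 {s m : ℝ} (h1 : (1 / 16) ≤ s) (h2 : s ≤ (1 / 4)) (h3 : (1 / 5) ≤ m) (h4 : m ≤ (43 / 100)) : (1 / 100) ≤ RR s m (41 / 10) := by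
  obtain ⟨p, hp⟩ : ∃ p, p = s - (1 / 16) := ⟨_, rfl⟩
  obtain ⟨p', hp'⟩ : ∃ p', p' = (1 / 4) - s := ⟨_, rfl⟩
  obtain ⟨q, hq⟩ : ∃ q, q = m - (1 / 5) := ⟨_, rfl⟩
  obtain ⟨q', hq'⟩ : ∃ q', q' = (43 / 100) - m := ⟨_, rfl⟩
  have p0 : 0 ≤ p := by rw [hp]; linarith
  have p1 : 0 ≤ p' := by rw [hp']; linarith
  have q0 : 0 ≤ q := by rw [hq]; linarith
  have q1 : 0 ≤ q' := by rw [hq']; linarith
  have key : RR s m (41 / 10) - (1 / 100) = (2074130 / 4761) * p' ^ 2 * q' ^ 2 + (11708363 / 9522) * p' ^ 2 * q * q' + (52264433 / 47610) * p' ^ 2 * q ^ 2 +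
      (350480 / 207) * p * p' * q' ^ 2 + (856780 / 207) * p * p' * q * q' + (3040996 / 1035) * p * p' * q ^ 2 +
      (5739680 / 4761) * p ^ 2 * q' ^ 2 + (13887736 / 4761) * p ^ 2 * q * q' + (45031528 / 23805) * p ^ 2 * q ^ 2 := by
    rw [hp, hp', hq, hq']; unfold RR gg zz; ring
  have : 0 ≤ RR s m (41 / 10) - (1 / 100) := by rw [key]; positivity
  linarith

/-- the line `ℓ₁` -/
def l1 (s : ℝ) : ℝ := 383 / 1000 + 185 / 1000 * s
/-- the line `ℓ₂` -/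
def l2 (s : ℝ) : ℝ := 39175 / 100000 + 15 / 100 * s

lemma R_lo {s m : ℝ} (h1 : 0 ≤ s) (h2 : s ≤ 1 / 4) (h3 : 0 ≤ m) (h4 : m ≤ l1 s) : RR s m (14 / 5) < 0 := by
  unfold l1 at h4
  rcases le_or_gt s (1 / 8) with h | h
  · linarith [Rlo_0 h1 h h3 (by linarith)]
  · linarith [Rlo_1 h.le h2 h3 (by linarith)]

lemma R_hi {s m : ℝ} (h1 : 0 ≤ s) (h2 : s ≤ 1 / 4) (h3 : 0 ≤ m) (h4 : m ≤ l1 s) : 0 < RR s m (41 / 10) := by
  unfold l1 at h4
  rcases le_or_gt s (1 / 16) with h | h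
  · rcases le_or_gt m (1 / 10) with h' | h'
    · linarith [Rhi_0 h1 h h3 h']
    · linarith [Rhi_1 h1 h h'.le (by linarith)]
  · rcases le_or_gt m (1 / 5) with h' | h'
    · linarith [Rhi_2 h.le h2 h3 h']
    · linarith [Rhi_3 h.le h2 h'.le (by linarith)]

/-- `RR` is a concave quadratic polynomial in `e` -/
lemma R_quad (s m e u v : ℝ) : RR s m e * (v - u) = RR s m u * (v - e) + RR s m v * (e - u) +
    s * m * (1 - s) / 2 * ((e - u) * (v - e) * (v - u)) := by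
  unfold RR gg zz; ring

lemma R_end (s m : ℝ) (hs : s ≠ 0) : RR s m (2 / s) * s = 4 * (1 - s) * (1 - s + 4 * s * m) := by
  unfold RR gg zz; field_simp; ring

/-- if `RR ≥ 0` then `e` exceeds every `t < 41/10` with `RR t < 0` -/
lemma e_gt_of_R {s m e t : ℝ} (h1 : 0 ≤ s) (h2 : s ≤ 1 / 4) (h3 : 0 ≤ m) (h4 : m ≤ l1 s) (ht : RR s m t < 0)
    (ht2 : t < 41 / 10) (hR : 0 ≤ RR s m e) : t < e := by
  by_contra hcon
  push Not at hcon
  have h5 := R_hi h1 h2 h3 h4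
  have h6 := R_quad s m t e (41 / 10)
  have h7 : 0 ≤ s * m * (1 - s) / 2 * ((t - e) * (41 / 10 - t) * (41 / 10 - e)) := by
    have : 0 ≤ s * m * (1 - s) := mul_nonneg (mul_nonneg h1 h3) (by linarith)
    have : 0 ≤ (t - e) * (41 / 10 - t) * (41 / 10 - e) :=
      mul_nonneg (mul_nonneg (by linarith) (by linarith)) (by linarith)
    positivity
  have h8 : RR s m t * (41 / 10 - e) < 0 := mul_neg_of_neg_of_pos ht (by linarith)
  have h9 : 0 ≤ RR s m e * (41 / 10 - t) := mul_nonneg hR (by linarith)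
  have h10 : 0 ≤ RR s m (41 / 10) * (t - e) := mul_nonneg h5.le (by linarith)
  linarith

/-- `R = 0` forces `e ≤ 41/10` -/
lemma e_le_of_R {s m e : ℝ} (h1 : 0 < s) (h2 : s ≤ 1 / 4) (h3 : 0 ≤ m) (h4 : m ≤ l1 s)
    (hes : e * s < 2) (hR : RR s m e ≤ 0) : e ≤ 41 / 10 := by
  by_contra hcon
  push Not at hcon
  have h5 := R_hi h1.le h2 h3 h4
  have h6 := R_quad s m e (41 / 10) (2 / s)
  have hv : e < 2 / s := by rw [lt_div_iff₀ h1]; exact hes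
  have hend : 0 < RR s m (2 / s) := by
    have := R_end s m h1.ne'
    have h8 : 0 < RR s m (2 / s) * s := by
      rw [this]
      have : 0 ≤ s * m := mul_nonneg h1.le h3
      have h9 : 0 < 1 - s := by linarith
      have h10 : 0 < 1 - s + 4 * s * m := by linarith
      positivity
    exact (pos_iff_pos_of_mul_pos h8).mpr h1
  have h7 : 0 ≤ s * m * (1 - s) / 2 * ((e - 41 / 10) * (2 / s - e) * (2 / s - 41 / 10)) := by
    have : 0 ≤ s * m * (1 - s) := mul_nonneg (mul_nonneg h1.le h3) (by linarith)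
    have : 0 ≤ (e - 41 / 10) * (2 / s - e) * (2 / s - 41 / 10) :=
      mul_nonneg (mul_nonneg (by linarith) (by linarith)) (by linarith)
    positivity
  have h8 : RR s m e * (2 / s - 41 / 10) ≤ 0 := mul_nonpos_of_nonpos_of_nonneg hR (by linarith)
  have h9 : 0 < RR s m (41 / 10) * (2 / s - e) := mul_pos h5 (by linarith)
  have h10 : 0 < RR s m (2 / s) * (e - 41 / 10) := mul_pos hend (by linarith)
  linarith

/-- first polynomial inequality of the trap -/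
theorem P1 {s m e : ℝ} (h1 : 0 < s) (h2 : s ≤ 1 / 4) (h3 : 0 ≤ m) (h4 : m ≤ l1 s)
    (hes : e * s < 2) (hR : RR s m e = 0) : 0 < DR s m e := by
  have h5 : 14 / 5 < e := e_gt_of_R h1.le h2 h3 h4 (R_lo h1.le h2 h3 h4) (by norm_num) hR.ge
  have h6 : e ≤ 41 / 10 := e_le_of_R h1 h2 h3 h4 hes hR.le
  have h7 := H_pos h1.le h2 h3 (by unfold l1 at h4; exact h4) h5.le h6
  rw [hR] at h7
  linarith

def ua0 (s : ℝ) : ℝ := (-298383289 / 31250000) + (-61758442619 / 12500000000) * s + (-5478108223 / 2500000000) * s ^ 2 + (-865088897 / 500000000) * s ^ 3 + (13321739 / 100000000) * s ^ 4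
def ua1 (s : ℝ) : ℝ := (338189 / 125000) + (-153406123 / 62500000) * s + (10078857219 / 12500000000) * s ^ 2 + (-2936626027 / 2500000000) * s ^ 3 + (137191597 / 500000000) * s ^ 4 + (-5723789 / 100000000) * s ^ 5
def ua2 (s : ℝ) : ℝ := (1857933 / 1000000) * s + (422196113 / 500000000) * s ^ 2 + (38397013181 / 50000000000) * s ^ 3 + (-820807223 / 10000000000) * s ^ 4 + (43105703 / 2000000000) * s ^ 5 + (-1874161 / 400000000) * s ^ 6
def ua3 (s : ℝ) : ℝ := (619311 / 2000000) * s ^ 2 + (45743507 / 200000000) * s ^ 3 + (502423 / 20000000) * s ^ 4 + (-50653 / 8000000) * s ^ 5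
def ta (s : ℝ) : ℝ := (143 / 40) + (-82 / 25) * s + (11 / 5) * s ^ 2
def uat (s : ℝ) : ℝ := (15492519 / 125000000) + (231191988601 / 200000000000) * s + (-63004920221551 / 16000000000000) * s ^ 2 + (-1037062312971031 / 320000000000000) * s ^ 3 + (13974655557971603 / 800000000000000) * s ^ 4 + (-7701469963100311 / 8000000000000000) * s ^ 5 + (-3416683883105017 / 400000000000000) * s ^ 6 + (511279550566579 / 40000000000000) * s ^ 7 + (-4136819525719 / 1000000000000) * s ^ 8 + (126532372043 / 200000000000) * s ^ 9 + (5463600967 / 10000000000) * s ^ 10 + (-67419143 / 1000000000) * s ^ 11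
def rat (s : ℝ) : ℝ := (18507 / 1000000) + (-13015381 / 80000000) * s + (178902291 / 200000000) * s ^ 2 + (-137196521 / 400000000) * s ^ 3 + (-58164457 / 20000000) * s ^ 4 + (-1278771 / 1000000) * s ^ 5 + (100639 / 100000) * s ^ 6 + (-4477 / 10000) * s ^ 7

lemma ua1_nonneg {s : ℝ} (h1 : 0 ≤ s) (h2 : s ≤ (1 / 4)) : 0 ≤ ua1 s := by
  obtain ⟨p, hp⟩ : ∃ p, p = s - 0 := ⟨_, rfl⟩
  obtain ⟨p', hp'⟩ : ∃ p', p' = (1 / 4) - s := ⟨_, rfl⟩
  have p0 : 0 ≤ p := by rw [hp]; linarith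
  have p1 : 0 ≤ p' := by rw [hp']; linarith
  have key : ua1 s - 0 = (43288192 / 15625) * p' ^ 5 + (25827871016 / 1953125) * p * p' ^ 4 + (4930203263619 / 195312500) * p ^ 2 * p' ^ 3 +
      (18804961594893 / 781250000) * p ^ 3 * p' ^ 2 + (35803548397757 / 3125000000) * p ^ 4 * p' + (27199280568331 / 12500000000) * p ^ 5 := by
    rw [hp, hp']; unfold ua1; ring
  have : 0 ≤ ua1 s - 0 := by rw [key]; positivity
  linarith

lemma ua2_nonneg {s : ℝ} (h1 : 0 ≤ s) (h2 : s ≤ (1 / 4)) : 0 ≤ ua2 s := by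
  obtain ⟨p, hp⟩ : ∃ p, p = s - 0 := ⟨_, rfl⟩
  obtain ⟨p', hp'⟩ : ∃ p', p' = (1 / 4) - s := ⟨_, rfl⟩
  have p0 : 0 ≤ p := by rw [hp]; linarith
  have p1 : 0 ≤ p' := by rw [hp']; linarith
  have key : ua2 s - 0 = 0 * p' ^ 6 + (29726928 / 15625) * p * p' ^ 5 + (19001526113 / 1953125) * p ^ 2 * p' ^ 4 +
      (15577374793981 / 781250000) * p ^ 3 * p' ^ 3 + (63963598806857 / 3125000000) * p ^ 4 * p' ^ 2 + (131527234479143 / 12500000000) * p ^ 5 * p' +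
      (108330210658719 / 50000000000) * p ^ 6 := by
    rw [hp, hp']; unfold ua2; ring
  have : 0 ≤ ua2 s - 0 := by rw [key]; positivity
  linarith

lemma ua3_nonneg {s : ℝ} (h1 : 0 ≤ s) (h2 : s ≤ (1 / 4)) : 0 ≤ ua3 s := by
  obtain ⟨p, hp⟩ : ∃ p, p = s - 0 := ⟨_, rfl⟩
  obtain ⟨p', hp'⟩ : ∃ p', p' = (1 / 4) - s := ⟨_, rfl⟩
  have p0 : 0 ≤ p := by rw [hp]; linarith
  have p1 : 0 ≤ p' := by rw [hp']; linarith
  have key : ua3 s - 0 = 0 * p' ^ 5 + 0 * p * p' ^ 4 + (619311 / 31250) * p ^ 2 * p' ^ 3 +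
      (788916707 / 12500000) * p ^ 3 * p' ^ 2 + (1671832543 / 25000000) * p ^ 4 * p' + (4714317107 / 200000000) * p ^ 5 := by
    rw [hp, hp']; unfold ua3; ring
  have : 0 ≤ ua3 s - 0 := by rw [key]; positivity
  linarith

lemma uat_pos {s : ℝ} (h1 : 0 ≤ s) (h2 : s ≤ (1 / 4)) : (1 / 100) ≤ uat s := by
  obtain ⟨p, hp⟩ : ∃ p, p = s - 0 := ⟨_, rfl⟩
  obtain ⟨p', hp'⟩ : ∃ p', p' = (1 / 4) - s := ⟨_, rfl⟩
  have p0 : 0 ≤ p := by rw [hp]; linarith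
  have p1 : 0 ≤ p' := by rw [hp']; linarith
  have key : uat s - (1 / 100) = (933397725184 / 1953125) * p' ^ 11 + (315869523507456 / 48828125) * p * p' ^ 10 + (9124347133846596 / 244140625) * p ^ 2 * p' ^ 9 +
      (604959127634264249 / 4882812500) * p ^ 3 * p' ^ 8 + (12919217090730340323 / 48828125000) * p ^ 4 * p' ^ 7 + (751317879948062713329 / 1953125000000) * p ^ 5 * p' ^ 6 +
      (762225436065773773169 / 1953125000000) * p ^ 6 * p' ^ 5 + (216589155252338438539 / 781250000000) * p ^ 7 * p' ^ 4 + (52955323989003843761 / 390625000000) * p ^ 8 * p' ^ 3 +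
      (68130036869365097859 / 1562500000000) * p ^ 9 * p' ^ 2 + (65131009215355750321 / 7812500000000) * p ^ 10 * p' + (11279363588041401617 / 15625000000000) * p ^ 11 := by
    rw [hp, hp']; unfold uat; ring
  have : 0 ≤ uat s - (1 / 100) := by rw [key]; positivity
  linarith

lemma rat_pos {s : ℝ} (h1 : 0 ≤ s) (h2 : s ≤ (1 / 4)) : (1 / 1000) ≤ rat s := by
  obtain ⟨p, hp⟩ : ∃ p, p = s - 0 := ⟨_, rfl⟩
  obtain ⟨p', hp'⟩ : ∃ p', p' = (1 / 4) - s := ⟨_, rfl⟩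
  have p0 : 0 ≤ p := by rw [hp]; linarith
  have p1 : 0 ≤ p' := by rw [hp']; linarith
  have key : rat s - (1 / 1000) = (4481792 / 15625) * p' ^ 7 + (104801196 / 78125) * p * p' ^ 6 + (1148899662 / 390625) * p ^ 2 * p' ^ 5 +
      (7086709919 / 1562500) * p ^ 3 * p' ^ 4 + (8334237311 / 1562500) * p ^ 4 * p' ^ 3 + (1594468506 / 390625) * p ^ 5 * p' ^ 2 +
      (5134123217 / 3125000) * p ^ 6 * p' + (1535077493 / 6250000) * p ^ 7 := by
    rw [hp, hp']; unfold rat; ring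
  have : 0 ≤ rat s - (1 / 1000) := by rw [key]; positivity
  linarith

lemma F2a_eq (s e : ℝ) : -F2 (185 / 1000) s (l1 s) e = ua1 s * e + ua2 s * e ^ 2 + ua3 s * e ^ 3 + ua0 s := by
  unfold F2 NN KK RR gg zz l1 ua0 ua1 ua2 ua3; ring

lemma uat_eq (s : ℝ) : uat s = ua1 s * ta s + ua2 s * ta s ^ 2 + ua3 s * ta s ^ 3 + ua0 s := by
  unfold uat ta ua0 ua1 ua2 ua3; ring

lemma rat_eq (s : ℝ) : rat s = -RR s (l1 s) (ta s) := by
  unfold rat ta RR gg zz l1; ring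

lemma ta_bd {s : ℝ} (h1 : 0 ≤ s) (h2 : s ≤ 1 / 4) : 0 ≤ ta s ∧ ta s < 41 / 10 := by
  unfold ta; constructor <;> nlinarith

/-- second polynomial inequality of the trap, line `ℓ₁` -/
theorem P2a {s e : ℝ} (h1 : 0 ≤ s) (h2 : s ≤ 1 / 4) (hR : 0 ≤ RR s (l1 s) e) : F2 (185 / 1000) s (l1 s) e < 0 := by
  have hl : 0 ≤ l1 s := by unfold l1; linarith
  obtain ⟨t0, t1⟩ := ta_bd h1 h2
  have h3 := rat_pos h1 h2
  rw [rat_eq] at h3
  have h4 : ta s < e := e_gt_of_R h1 h2 hl le_rfl (by linarith) t1 hR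
  have h5 := uat_pos h1 h2
  rw [uat_eq] at h5
  have h6 := F2a_eq s e
  have a1 := ua1_nonneg h1 h2
  have a2 := ua2_nonneg h1 h2
  have a3 := ua3_nonneg h1 h2
  have b1 : ua1 s * ta s ≤ ua1 s * e := mul_le_mul_of_nonneg_left h4.le a1
  have b2 : ua2 s * ta s ^ 2 ≤ ua2 s * e ^ 2 := mul_le_mul_of_nonneg_left (pow_le_pow_left₀ t0 h4.le 2) a2
  have b3 : ua3 s * ta s ^ 3 ≤ ua3 s * e ^ 3 := mul_le_mul_of_nonneg_left (pow_le_pow_left₀ t0 h4.le 3) a3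
  linarith

def ub0 (s : ℝ) : ℝ := (-40883586137 / 4000000000) + (-333549275159 / 80000000000) * s + (-925742853 / 400000000) * s ^ 2 + (-2289717 / 2000000) * s ^ 3 + (729 / 10000) * s ^ 4
def ub1 (s : ℝ) : ℝ := (5589489 / 2000000) + (-37860671063 / 16000000000) * s + (24005705237 / 40000000000) * s ^ 2 + (-42182559 / 50000000) * s ^ 3 + (190161 / 1000000) * s ^ 4 + (-81 / 2500) * s ^ 5
def ub2 (s : ℝ) : ℝ := (30241533 / 16000000) * s + (25396160737 / 32000000000) * s ^ 2 + (193914614211 / 320000000000) * s ^ 3 + (-84856203 / 1600000000) * s ^ 4 + (89073 / 8000000) * s ^ 5 + (-81 / 40000) * s ^ 6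
def ub3 (s : ℝ) : ℝ := (10080511 / 32000000) * s ^ 2 + (59437533 / 320000000) * s ^ 3 + (12897 / 800000) * s ^ 4 + (-27 / 8000) * s ^ 5
def ubt (s : ℝ) : ℝ := (-15796160737 / 4000000000) + (77961553137279 / 6400000000000) * s + (-17192103302483393 / 64000000000000000) * s ^ 2 + (-1285574202677289821 / 64000000000000000) * s ^ 3 + (5499333806778021 / 64000000000000000) * s ^ 4 + (1067280319908388793 / 64000000000000000) * s ^ 5 + (1921018368779823 / 320000000000000) * s ^ 6 + (-3119982816003141 / 320000000000000) * s ^ 7 + (-4291883968491 / 800000000000) * s ^ 8 + (2954148951897 / 800000000000) * s ^ 9 + (6932909799 / 4000000000) * s ^ 10 + (-3251833533 / 4000000000) * s ^ 11 + (-9484047 / 40000000) * s ^ 12 + (3582549 / 40000000) * s ^ 13 + (2187 / 200000) * s ^ 14 + (-729 / 200000) * s ^ 15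

lemma ub1_nonneg {s : ℝ} (h1 : (1 / 4) ≤ s) (h2 : s ≤ (289 / 400)) : 0 ≤ ub1 s := by
  obtain ⟨p, hp⟩ : ∃ p, p = s - (1 / 4) := ⟨_, rfl⟩
  obtain ⟨p', hp'⟩ : ∃ p', p' = (289 / 400) - s := ⟨_, rfl⟩
  have p0 : 0 ≤ p := by rw [hp]; linarith
  have p1 : 0 ≤ p' := by rw [hp']; linarith
  have key : ub1 s - 0 = (7605621948304 / 80387359983) * p' ^ 5 + (861468415697888 / 2009683999575) * p * p' ^ 4 + (38627732225042959 / 50242099989375) * p ^ 2 * p' ^ 3 +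
      (34046451457636063 / 50242099989375) * p ^ 3 * p' ^ 2 + (58419572191126163 / 200968399957500) * p ^ 4 * p' + (2401349296391581 / 50242099989375) * p ^ 5 := by
    rw [hp, hp']; unfold ub1; ring
  have : 0 ≤ ub1 s - 0 := by rw [key]; positivity
  linarith

lemma ub2_nonneg {s : ℝ} (h1 : (1 / 4) ≤ s) (h2 : s ≤ (289 / 400)) : 0 ≤ ub2 s := by
  obtain ⟨p, hp⟩ : ∃ p, p = s - (1 / 4) := ⟨_, rfl⟩
  obtain ⟨p', hp'⟩ : ∃ p', p' = (289 / 400) - s := ⟨_, rfl⟩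
  have p0 : 0 ≤ p := by rw [hp]; linarith
  have p1 : 0 ≤ p' := by rw [hp']; linarith
  have key : ub2 s - 0 = (310943467172600 / 6511376158623) * p' ^ 6 + (842833490648074 / 2170458719541) * p * p' ^ 5 + (135650234291291813 / 108522935977050) * p ^ 2 * p' ^ 4 +
      (67622212708975330937 / 32556880793115000) * p ^ 3 * p' ^ 3 + (41196332478799837561 / 21704587195410000) * p ^ 4 * p' ^ 2 + (5641712487810181019 / 6201310627260000) * p ^ 5 * p' +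
      (46714826884527879899 / 260455046344920000) * p ^ 6 := by
    rw [hp, hp']; unfold ub2; ring
  have : 0 ≤ ub2 s - 0 := by rw [key]; positivity
  linarith

lemma ub3_nonneg {s : ℝ} (h1 : (1 / 4) ≤ s) (h2 : s ≤ (289 / 400)) : 0 ≤ ub3 s := by
  obtain ⟨p, hp⟩ : ∃ p, p = s - (1 / 4) := ⟨_, rfl⟩
  obtain ⟨p', hp'⟩ : ∃ p', p' = (289 / 400) - s := ⟨_, rfl⟩
  have p0 : 0 ≤ p := by rw [hp]; linarith
  have p1 : 0 ≤ p' := by rw [hp']; linarith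
  have key : ub3 s - 0 = (231940086500 / 241162079949) * p' ^ 5 + (2094848598655 / 241162079949) * p * p' ^ 4 + (142225116845719 / 4823241598980) * p ^ 2 * p' ^ 3 +
      (22599703713777277 / 482324159898000) * p ^ 3 * p' ^ 2 + (2122926284168107 / 60290519987250) * p ^ 4 * p' + (19515093503159293 / 1929296639592000) * p ^ 5 := by
    rw [hp, hp']; unfold ub3; ring
  have : 0 ≤ ub3 s - 0 := by rw [key]; positivity
  linarith

lemma ubt_pos {s : ℝ} (h1 : (1 / 2) ≤ s) (h2 : s ≤ (17 / 20)) : (1 / 100) ≤ ubt s := by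
  obtain ⟨p, hp⟩ : ∃ p, p = s - (1 / 2) := ⟨_, rfl⟩
  obtain ⟨p', hp'⟩ : ∃ p', p' = (17 / 20) - s := ⟨_, rfl⟩
  have p0 : 0 ≤ p := by rw [hp]; linarith
  have p1 : 0 ≤ p' := by rw [hp']; linarith
  have key : ubt s - (1 / 100) = (2795082113415338512 / 4747561509943) * p' ^ 15 + (323148193405361013208 / 23737807549715) * p * p' ^ 14 + (2021352671719875467888 / 16955576821225) * p ^ 2 * p' ^ 13 +
      (49374331002241207472392 / 84777884106125) * p ^ 3 * p' ^ 12 + (781335803892050218094571 / 423889420530625) * p ^ 4 * p' ^ 11 + (17267142943767176439658953 / 4238894205306250) * p ^ 5 * p' ^ 10 +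
      (5554315000900038455884709 / 847778841061250) * p ^ 6 * p' ^ 9 + (465549344711794087775050617 / 59344518874287500) * p ^ 7 * p' ^ 8 + (209637490130914031307887403 / 29672259437143750) * p ^ 8 * p' ^ 7 +
      (324656048913677572606591 / 67822307284900) * p ^ 9 * p' ^ 6 + (819642588786543012394033 / 339111536424500) * p ^ 10 * p' ^ 5 + (15103170765584698749147263 / 16955576821225000) * p ^ 11 * p' ^ 4 +
      (7829347614416936774328163 / 33911153642450000) * p ^ 12 * p' ^ 3 + (21405868789011424509441 / 542578458279200) * p ^ 13 * p' ^ 2 + (1864826420540529805591947 / 474756150994300000) * p ^ 14 * p' +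
      (31919759845475218917241 / 189902460397720000) * p ^ 15 := by
    rw [hp, hp']; unfold ubt; ring
  have : 0 ≤ ubt s - (1 / 100) := by rw [key]; positivity
  linarith

lemma F2b_eq (s e : ℝ) : -F2 (15 / 100) s (l2 s) e = ub1 s * e + ub2 s * e ^ 2 + ub3 s * e ^ 3 + ub0 s := by
  unfold F2 NN KK RR gg zz l2 ub0 ub1 ub2 ub3; ring

lemma ubt_eq (s : ℝ) : s ^ 4 * ubt s = ub3 (s ^ 2) * (2 * (2 * s - l2 (s ^ 2))) ^ 3 +
    ub2 (s ^ 2) * (2 * (2 * s - l2 (s ^ 2))) ^ 2 * (s ^ 2 * (2 - l2 (s ^ 2))) +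
    ub1 (s ^ 2) * (2 * (2 * s - l2 (s ^ 2))) * (s ^ 2 * (2 - l2 (s ^ 2))) ^ 2 +
    ub0 (s ^ 2) * (s ^ 2 * (2 - l2 (s ^ 2))) ^ 3 := by
  unfold ubt l2 ub0 ub1 ub2 ub3; ring

/-- second polynomial inequality of the trap, line `ℓ₂` -/
theorem P2b {σ e : ℝ} (h1 : 1 / 2 ≤ σ) (h2 : l2 (σ ^ 2) < 1 / 2) (hz : 2 * σ < zz (σ ^ 2) (l2 (σ ^ 2)) e) :
    F2 (15 / 100) (σ ^ 2) (l2 (σ ^ 2)) e < 0 := by
  have h3 : σ ≤ 17 / 20 := by
    unfold l2 at h2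
    by_contra hcon
    push Not at hcon
    nlinarith
  have hs1 : 1 / 4 ≤ σ ^ 2 := by nlinarith
  have hs2 : σ ^ 2 ≤ 289 / 400 := by nlinarith
  have hD : 0 < σ ^ 2 * (2 - l2 (σ ^ 2)) := mul_pos (by positivity) (by linarith)
  have hA : 0 ≤ 2 * (2 * σ - l2 (σ ^ 2)) := by linarith
  have heD : 2 * (2 * σ - l2 (σ ^ 2)) ≤ e * (σ ^ 2 * (2 - l2 (σ ^ 2))) := by
    unfold zz at hz; nlinarith
  have a1 := ub1_nonneg hs1 hs2
  have a2 := ub2_nonneg hs1 hs2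
  have a3 := ub3_nonneg hs1 hs2
  have a4 := ubt_pos h1 h3
  have a5 := ubt_eq σ
  have a6 : 0 < σ ^ 4 * ubt σ := by
    have : 0 < ubt σ := by linarith
    positivity
  rw [a5] at a6
  have h6 := F2b_eq (σ ^ 2) e
  generalize σ ^ 2 * (2 - l2 (σ ^ 2)) = D at *
  generalize 2 * (2 * σ - l2 (σ ^ 2)) = A at *
  have b1 : ub1 (σ ^ 2) * A * D ^ 2 ≤ ub1 (σ ^ 2) * (e * D) * D ^ 2 :=
    mul_le_mul_of_nonneg_right (mul_le_mul_of_nonneg_left heD a1) (by positivity)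
  have b2 : ub2 (σ ^ 2) * A ^ 2 * D ≤ ub2 (σ ^ 2) * (e * D) ^ 2 * D :=
    mul_le_mul_of_nonneg_right (mul_le_mul_of_nonneg_left (pow_le_pow_left₀ hA heD 2) a2) hD.le
  have b3 : ub3 (σ ^ 2) * A ^ 3 ≤ ub3 (σ ^ 2) * (e * D) ^ 3 :=
    mul_le_mul_of_nonneg_left (pow_le_pow_left₀ hA heD 3) a3
  have h7 : 0 < (-F2 (15 / 100) (σ ^ 2) (l2 (σ ^ 2)) e) * D ^ 3 := by
    rw [h6]
    have : (ub1 (σ ^ 2) * e + ub2 (σ ^ 2) * e ^ 2 + ub3 (σ ^ 2) * e ^ 3 + ub0 (σ ^ 2)) * D ^ 3 =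
      ub3 (σ ^ 2) * (e * D) ^ 3 + ub2 (σ ^ 2) * (e * D) ^ 2 * D + ub1 (σ ^ 2) * (e * D) * D ^ 2 +
        ub0 (σ ^ 2) * D ^ 3 := by ring
    rw [this]; linarith
  have h8 := (pos_iff_pos_of_mul_pos h7).mpr (by positivity)
  linarith

def ps2 (s : ℝ) : ℝ := (-1567 / 1000) + (28847489 / 8000000) * s + (8319050737 / 16000000000) * s ^ 2 + (-31299 / 20000) * s ^ 3 + (-140863401 / 80000000) * s ^ 4 + (9 / 200) * s ^ 5 + (119691 / 400000) * s ^ 6 + (-27 / 2000) * s ^ 8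
/-- `Ψ` -/
def Psi (s m : ℝ) : ℝ := -4 * m + 8 * s - 12 * s * m + 2 * s * m ^ 2 + 8 * s ^ 2 - 24 * s ^ 2 * m + 18 * s ^ 2 * m ^ 2
  - 4 * s ^ 2 * m ^ 3

lemma ps2_pos {s : ℝ} (h1 : (1 / 2) ≤ s) (h2 : s ≤ (4 / 5)) : (1 / 100) ≤ ps2 s := by
  obtain ⟨p, hp⟩ : ∃ p, p = s - (1 / 2) := ⟨_, rfl⟩
  obtain ⟨p', hp'⟩ : ∃ p', p' = (4 / 5) - s := ⟨_, rfl⟩
  have p0 : 0 ≤ p := by rw [hp]; linarith
  have p1 : 0 ≤ p' := by rw [hp']; linarith
  have key : ps2 s - (1 / 100) = (3604089187 / 4199040) * p' ^ 8 + (174854197151 / 10497600) * p * p' ^ 7 + (9121087656103 / 104976000) * p ^ 2 * p' ^ 6 +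
      (5717321763407 / 26244000) * p ^ 3 * p' ^ 5 + (32414348487733 / 104976000) * p ^ 4 * p' ^ 4 + (13618165064611 / 52488000) * p ^ 5 * p' ^ 3 +
      (13296212920969 / 104976000) * p ^ 6 * p' ^ 2 + (212620325927 / 6561000) * p ^ 7 * p' + (5223932149 / 1640250) * p ^ 8 := by
    rw [hp, hp']; unfold ps2; ring
  have : 0 ≤ ps2 s - (1 / 100) := by rw [key]; positivity
  linarith

lemma ps2_eq (s : ℝ) : ps2 s = Psi s (l2 (s ^ 2)) := by unfold ps2 Psi l2; ring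

/-- `Ψ` decreases in `m` -/
lemma Psi_anti {σ m m' : ℝ} (h1 : 0 ≤ σ) (h2 : 0 ≤ m) (h3 : m ≤ m') (h4 : m' ≤ 1 / 2) :
    Psi σ m' ≤ Psi σ m := by
  have e : Psi σ m - Psi σ m' = (m' - m) * (4 + 12 * σ - 2 * σ * (m + m') + 24 * σ ^ 2 - 18 * σ ^ 2 * (m + m') +
      4 * σ ^ 2 * (m ^ 2 + m * m' + m' ^ 2)) := by unfold Psi; ring
  have h5 : 0 ≤ 4 + 12 * σ - 2 * σ * (m + m') + 24 * σ ^ 2 - 18 * σ ^ 2 * (m + m') +
      4 * σ ^ 2 * (m ^ 2 + m * m' + m' ^ 2) := by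
    have a1 : 0 ≤ σ * (1 - (m + m')) := mul_nonneg h1 (by linarith)
    have a2 : 0 ≤ σ ^ 2 * (1 - (m + m')) := mul_nonneg (sq_nonneg σ) (by linarith)
    have a3 : 0 ≤ 4 * σ ^ 2 * (m ^ 2 + m * m' + m' ^ 2) := by
      have : 0 ≤ m' := h2.trans h3
      positivity
    nlinarith [sq_nonneg σ]
  have := mul_nonneg (sub_nonneg.mpr h3) h5
  linarith

lemma Psi_pos {σ m : ℝ} (h1 : 1 / 2 ≤ σ) (h2 : σ < 1) (h3 : 0 < m) (h4 : m ≤ l2 (σ ^ 2)) (h5 : m < 1 / 2) :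
    0 < Psi σ m := by
  rcases le_or_gt σ (4 / 5) with h | h
  · have h6 := ps2_pos h1 h
    rw [ps2_eq] at h6
    have h7 : l2 (σ ^ 2) ≤ 1 / 2 := by unfold l2; nlinarith
    have h8 := Psi_anti (σ := σ) (by linarith) h3.le h4 h7
    linarith
  · have h6 := Psi_anti (σ := σ) (by linarith) h3.le h5.le le_rfl
    have h7 : Psi σ (1 / 2) = 5 / 2 * σ - 2 := by unfold Psi; ring
    linarith

/-- third polynomial inequality of the trap -/
theorem P3 {σ m e : ℝ} (h1 : 1 / 2 ≤ σ) (h2 : σ < 1) (h3 : 0 < m) (h4 : m ≤ l2 (σ ^ 2)) (h5 : m < 1 / 2)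
    (hz : 2 * σ < zz (σ ^ 2) m e) (hz2 : zz (σ ^ 2) m e < 2) : 0 < RR (σ ^ 2) m e := by
  obtain ⟨z, hzz⟩ : ∃ z, z = zz (σ ^ 2) m e := ⟨_, rfl⟩
  rw [← hzz] at hz hz2
  have hσ : 0 < σ := by linarith
  have h2m : 0 < 2 - m := by linarith
  have key : σ ^ 2 * (2 - m) ^ 2 / 2 * RR (σ ^ 2) m e * (2 - 2 * σ) =
      (1 - σ) ^ 3 * Psi σ m * (2 - z) + 2 * (2 - m) ^ 2 * (1 - σ ^ 2) * (1 - σ ^ 2 + 4 * σ ^ 2 * m) * (z - 2 * σ) +
      m * (1 - σ ^ 2) * ((z - 2 * σ) * (2 - z) * (2 - 2 * σ)) := by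
    rw [hzz]; unfold RR gg zz Psi; ring
  have a0 := Psi_pos h1 h2 h3 h4 h5
  have a1 : 0 < 1 - σ := by linarith
  have a2 : 0 < 1 - σ ^ 2 := by nlinarith
  have a3 : 0 < 2 - z := by linarith
  have a4 : 0 < z - 2 * σ := by linarith
  have a5 : 0 < 2 - 2 * σ := by linarith
  have a6 : 0 < σ ^ 2 * (2 - m) ^ 2 / 2 * RR (σ ^ 2) m e * (2 - 2 * σ) := by rw [key]; positivity
  have a7 : 0 < σ ^ 2 * (2 - m) ^ 2 / 2 * RR (σ ^ 2) m e := (pos_iff_pos_of_mul_pos a6).mpr a5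
  exact (pos_iff_pos_of_mul_pos a7).mp (by positivity)

end

end Pool.Agent.Helper974.StarQ.StarPoly
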