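import Pool.Agent.Helper974.StarQ.StarC

set_option autoImplicit false

open Filter Topology Set

namespace Pool.Agent.Helper974.StarQ.Star

open Pool.Agent.Helper974.StarQ.StarPoly

noncomputable section

variable {n r E X G l : ℝ × ℝ → ℝ}

/-- the critical curve: sign structure -/
structure Gam (n r E X G : ℝ × ℝ → ℝ) (ηb : ℝ) (ξs : ℝ → ℝ) : Prop where
  b0 : 0 < ηb
  pos : ∀ η, ηb < η → 0 < ξs η
  zero : ∀ η, ηb < η → Kf n r E X G (ξs η, η) = 0
  neg : ∀ η, ηb < η → ∀ ξ, 0 < ξ → ξ < ξs η → Kf n r E X G (ξ, η) < 0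
  plus : ∀ η, ηb < η → ∀ ξ, ξs η < ξ → 0 < Kf n r E X G (ξ, η)
  low : ∀ η, 0 < η → η ≤ ηb → ∀ ξ, 0 < ξ → 0 < Kf n r E X G (ξ, η)

theorem Sys.gam (h : Sys n r E X G l) {ηb : ℝ} (hb0 : 0 < ηb)
    (hinf : ∀ η, 0 < η → Tendsto (fun ξ => n (ξ, η) / r (ξ, η)) atTop atTop)
    (hlt : ∀ η, 0 < η → η < ηb → 1 < y0 r E G η) (hgt : ∀ η, ηb < η → y0 r E G η < 1) :
    ∃ ξs, Gam n r E X G ηb ξs := by
  obtain ⟨h1, ξs, h2⟩ := h.stepA hb0 hinf hlt hgt
  exact ⟨ξs, hb0, fun η hη => (h2 η hη).1, fun η hη => (h2 η hη).2.1, fun η hη => (h2 η hη).2.2.1,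
    fun η hη => (h2 η hη).2.2.2, h1⟩

lemma Sys.K_cont_eta (h : Sys n r E X G l) (ξ : ℝ) {η : ℝ} (hη : 0 < η) :
    ContinuousAt (fun t => Kf n r E X G (ξ, t)) η := by
  have := (h.dK (p := (ξ, η)) hη).continuousAt
  exact ContinuousAt.comp (f := fun η' : ℝ => (ξ, η')) this (by fun_prop)

lemma Gam.lt_of_neg {ηb : ℝ} {ξs : ℝ → ℝ} (g : Gam n r E X G ηb ξs) {ξ η : ℝ} (hη : ηb < η)
    (hK : Kf n r E X G (ξ, η) < 0) : ξ < ξs η := by
  rcases lt_trichotomy ξ (ξs η) with h | h | h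
  · exact h
  · rw [h, g.zero η hη] at hK; exact absurd hK (lt_irrefl _)
  · linarith [g.plus η hη ξ h]

lemma Gam.gt_of_pos {ηb : ℝ} {ξs : ℝ → ℝ} (g : Gam n r E X G ηb ξs) {ξ η : ℝ} (hη : ηb < η) (hξ : 0 < ξ)
    (hK : 0 < Kf n r E X G (ξ, η)) : ξs η < ξ := by
  rcases lt_trichotomy ξ (ξs η) with h | h | h
  · linarith [g.neg η hη ξ hξ h]
  · rw [h, g.zero η hη] at hK; exact absurd hK (lt_irrefl _)
  · exact h

lemma Sys.gam_cont (h : Sys n r E X G l) {ηb : ℝ} {ξs : ℝ → ℝ} (g : Gam n r E X G ηb ξs) {η : ℝ} (hη : ηb < η) :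
    ContinuousAt ξs η := by
  have hη0 := g.b0.trans hη
  rw [Metric.continuousAt_iff']
  intro ε hε
  have hp := g.pos η hη
  obtain ⟨δ, hδ⟩ : ∃ δ, δ = min (ε / 2) (ξs η / 2) := ⟨_, rfl⟩
  have hδ0 : 0 < δ := by rw [hδ]; exact lt_min (half_pos hε) (half_pos hp)
  have hδ1 : δ < ε := by rw [hδ]; exact (min_le_left _ _).trans_lt (half_lt_self hε)
  have hδ2 : δ < ξs η := by rw [hδ]; exact (min_le_right _ _).trans_lt (half_lt_self hp)
  have k1 := g.neg η hη (ξs η - δ) (by linarith) (by linarith)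
  have k2 := g.plus η hη (ξs η + δ) (by linarith)
  filter_upwards [(h.K_cont_eta (ξs η - δ) hη0).eventually (gt_mem_nhds k1),
    (h.K_cont_eta (ξs η + δ) hη0).eventually (lt_mem_nhds k2), lt_mem_nhds hη] with t h1 h2 h3
  have := g.lt_of_neg h3 h1
  have := g.gt_of_pos h3 (by linarith) h2
  rw [Real.dist_eq, abs_lt]
  constructor <;> linarith

lemma Sys.gam_lim (h : Sys n r E X G l) {ηb : ℝ} {ξs : ℝ → ℝ} (g : Gam n r E X G ηb ξs) :
    Tendsto (fun η => (ξs η, η)) (𝓝[>] ηb) (𝓝[{p : ℝ × ℝ | 0 < p.1}] ((0 : ℝ), ηb)) := by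
  apply tendsto_nhdsWithin_of_tendsto_nhds_of_eventually_within
  · apply Tendsto.prodMk_nhds
    · rw [Metric.tendsto_nhds]
      intro ε hε
      have k := g.low ηb g.b0 le_rfl ε hε
      have := (h.K_cont_eta ε g.b0).eventually (lt_mem_nhds k)
      filter_upwards [nhdsWithin_le_nhds this, self_mem_nhdsWithin] with t h1 h2
      rw [Real.dist_eq, sub_zero, abs_of_pos (g.pos t h2)]
      exact g.gt_of_pos h2 hε h1
    · exact tendsto_id.mono_left nhdsWithin_le_nhds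
  · filter_upwards [self_mem_nhdsWithin] with t ht
    exact g.pos t ht

/-- all derivatives along the critical curve -/
lemma Sys.gam_deriv (h : Sys n r E X G l) {ηb : ℝ} {ξs : ℝ → ℝ} (g : Gam n r E X G ηb ξs) {η : ℝ} (hη : ηb < η)
    {s m e w lam : ℝ} (hs : s = X (ξs η, η) ^ 2) (hm : m = mf n r X (ξs η, η)) (he : e = ef n r E X G (ξs η, η))
    (hw : w = r (ξs η, η) / (2 * s)) (hlam : lam = -RR s m e / NN s m e) :
    HasDerivAt (fun t => X (ξs t, t) ^ 2) (w * (Ds s m e + lam * (2 * gg s m e * s))) η ∧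
    HasDerivAt (fun t => mf n r X (ξs t, t)) (w * (Dm s m e + lam * (m * s * (e + 2 * m)))) η ∧
    HasDerivAt (fun t => ef n r E X G (ξs t, t))
      (w * (De s m e + lam * (4 - e * zz s m e + m * (2 - zz s m e - 3 * gg s m e) - 2 * e * gg s m e))) η ∧
    HasDerivAt (fun t => l (ξs t, t)) (-(r (ξs η, η) * lam)) η := by
  have hη0 : 0 < η := g.b0.trans hη
  have hp := g.pos η hη
  have hK := g.zero η hη
  obtain ⟨e1, e2, e3, e4⟩ := Kx_crit h (p := (ξs η, η)) hη0 hp hK hs hm he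
  have hX0 := (h.Xpos (ξs η, η) hη0 hp).1
  have hKx := h.Kx_pos (p := (ξs η, η)) hη0 hp hK
  have hcr := h.crit (p := (ξs η, η)) hη0 hp hK
  rw [← hs, ← hm, ← he] at hcr
  have hN := hcr.N_pos
  have hs0 := hcr.s0
  have hm0 := hcr.m0
  have hr0 := h.rpos (ξs η, η) hη0
  have hd := implicit_deriv (h.dK (p := (ξs η, η)) hη0) hKx.ne' (h.gam_cont g hη)
    ((lt_mem_nhds hη).mono fun t ht => g.zero t ht)
  have hl2 : lam = 2 * X (ξs η, η) * (-Ky n r E X G (ξs η, η) / Kx n r E X G (ξs η, η)) - (1 + s) := by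
    have h5 : 2 * X (ξs η, η) * Ky n r E X G (ξs η, η) =
        m * r (ξs η, η) ^ 2 * s * RR s m e - (1 + s) * (m * r (ξs η, η) ^ 2 * s * NN s m e) := by
      rw [← e3]; linarith
    have h6 : 2 * X (ξs η, η) * (-Ky n r E X G (ξs η, η) / Kx n r E X G (ξs η, η)) =
        -(2 * X (ξs η, η) * Ky n r E X G (ξs η, η)) / Kx n r E X G (ξs η, η) := by ring
    rw [h6, h5, e3, hlam]
    field_simp
    ring
  obtain ⟨c1, c2, c3, c4, c5, -⟩ := h.curve hη0 hd hp hs rfl hm rfl hw hl2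
  rw [e2, e1] at c1 c2 c3 c4
  have hzg : zz s m e - gg s m e = e * s := by unfold zz gg; ring
  refine ⟨?_, ?_, ?_, c5⟩
  · refine c1.congr_deriv ?_
    have : 2 * gg s m e * (1 - s) + 4 * m * s * (1 + s - zz s m e) = 2 * m * KK s m e := by
      unfold KK gg; ring
    rw [this]; unfold Ds; ring
  · refine c4.congr_deriv ?_
    rw [hzg]; unfold Dm; ring
  · have hss : X (ξs η, η) ^ 2 = s := hs.symm
    have c6 := (c3.sub c2).div c1 (by rw [hss]; exact hs0.ne')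
    have e7 : (zf n r E X (ξs η, η) - G (ξs η, η)) = e * s := by rw [e2, e1, hzg]
    have c7 : HasDerivAt (fun t => ef n r E X G (ξs t, t)) _ η := c6
    refine c7.congr_deriv ?_
    simp only [Pi.sub_apply]
    rw [e7, hss]
    have h8 : 2 * gg s m e * (1 - s) + 4 * m * s * (1 + s - zz s m e) = 2 * m * KK s m e := by
      unfold KK gg; ring
    rw [h8, hzg]
    unfold De
    generalize KK s m e = k at *
    generalize zz s m e = z at *
    generalize gg s m e = q at *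
    field_simp
    ring

/-- the logarithm of the modulus increases along the critical curve -/
theorem Sys.gam_l (h : Sys n r E X G l) {ηb : ℝ} {ξs : ℝ → ℝ} (g : Gam n r E X G ηb ξs)
    (hyb : y0 r E G ηb = 1) (hGb : G (0, ηb) < 383 / 1000) {η : ℝ} (hη : ηb < η) :
    ∃ d, 0 < d ∧ HasDerivAt (fun t => l (ξs t, t)) d η := by
  have hcrit : ∀ η, ηb < η → Crit (X (ξs η, η) ^ 2) (mf n r X (ξs η, η)) (ef n r E X G (ξs η, η)) :=
    fun η hη => h.crit (p := (ξs η, η)) (g.b0.trans hη) (g.pos η hη) (g.zero η hη)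
  have hall := trap (ηb := ηb) (s := fun t => X (ξs t, t) ^ 2) (m := fun t => mf n r X (ξs t, t))
    (e := fun t => ef n r E X G (ξs t, t)) (w := fun t => r (ξs t, t) / (2 * X (ξs t, t) ^ 2))
    (lam := fun t => -RR (X (ξs t, t) ^ 2) (mf n r X (ξs t, t)) (ef n r E X G (ξs t, t)) /
      NN (X (ξs t, t) ^ 2) (mf n r X (ξs t, t)) (ef n r E X G (ξs t, t)))
    hcrit
    (fun η hη => div_pos (h.rpos (ξs η, η) (g.b0.trans hη)) (by have := (hcrit η hη).s0; linarith))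
    (fun η hη => rfl) (fun η hη => (h.gam_deriv g hη rfl rfl rfl rfl rfl).1)
    (fun η hη => (h.gam_deriv g hη rfl rfl rfl rfl rfl).2.1)
    (fun η hη => (h.gam_deriv g hη rfl rfl rfl rfl rfl).2.2.1) ?_
  · refine ⟨_, ?_, (h.gam_deriv g hη rfl rfl rfl rfl rfl).2.2.2⟩
    have h1 := hall η hη
    have h2 := (hcrit η hη).N_pos
    have h3 := h.rpos (ξs η, η) (g.b0.trans hη)
    rw [neg_div, mul_neg, neg_neg]
    positivity
  · -- start of the trap
    have hb := g.b0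
    obtain ⟨q, hq⟩ : ∃ q, q = G (0, ηb) := ⟨_, rfl⟩
    have hq0 : 0 < q := by rw [hq]; exact (h.Gpos (0, ηb) hb).1
    have hq1 : q < 383 / 1000 := by rw [hq]; exact hGb
    have hr0 := h.rpos (0, ηb) hb
    have hE : E (0, ηb) / (r (0, ηb) ^ 2 * G (0, ηb)) = q := by
      unfold y0 at hyb
      rw [← hq] at hyb ⊢
      rw [div_eq_iff (by positivity)] at hyb ⊢
      linarith
    have hlim := h.gam_lim g
    have hXc : Tendsto (fun η => X (ξs η, η) ^ 2) (𝓝[>] ηb) (𝓝 0) := by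
      have hc : ContinuousAt X (0, ηb) := (h.dX (0, ηb) hb).continuousAt
      have := (hc.tendsto.comp (hlim.mono_right nhdsWithin_le_nhds)).pow 2
      rw [h.X0 ηb hb] at this
      simpa using this
    have hGc : Tendsto (fun η => G (ξs η, η)) (𝓝[>] ηb) (𝓝 q) := by
      have hc : ContinuousAt G (0, ηb) := (h.dG (0, ηb) hb).continuousAt
      rw [hq]
      exact hc.tendsto.comp (hlim.mono_right nhdsWithin_le_nhds)
    have hzc : Tendsto (fun η => zf n r E X (ξs η, η)) (𝓝[>] ηb) (𝓝 q) := by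
      rw [hq]; exact (h.limz hb).comp hlim
    have hmc : Tendsto (fun η => mf n r X (ξs η, η)) (𝓝[>] ηb) (𝓝 q) := by
      have := (h.limm hb).comp hlim
      rw [hE] at this
      exact this
    obtain ⟨el, hel⟩ : ∃ el, el = ((8 + 6 * q - 12 * q ^ 2) / (2 + q) + (4 + 2 * q - 4 * q ^ 2) / (3 * q)) / 2 := ⟨_, rfl⟩
    have hkey : (8 + 6 * q - 12 * q ^ 2) / (2 + q) < (4 + 2 * q - 4 * q ^ 2) / (3 * q) := by
      rw [div_lt_div_iff₀ (by linarith) (by linarith)]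
      have : (4 + 2 * q - 4 * q ^ 2) * (2 + q) - (8 + 6 * q - 12 * q ^ 2) * (3 * q) = 8 * (1 - q) * (1 - q - 4 * q ^ 2) := by
        ring
      have h1 : 0 < 1 - q - 4 * q ^ 2 := by nlinarith
      have h2 : 0 < 1 - q := by linarith
      have h3 : 0 < 8 * (1 - q) * (1 - q - 4 * q ^ 2) := by positivity
      linarith
    have hel1 : (8 + 6 * q - 12 * q ^ 2) < el * (2 + q) := by
      have : (8 + 6 * q - 12 * q ^ 2) / (2 + q) < el := by rw [hel]; linarith
      rwa [div_lt_iff₀ (by linarith)] at this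
    have hel2 : el * (3 * q) < 4 + 2 * q - 4 * q ^ 2 := by
      have : el < (4 + 2 * q - 4 * q ^ 2) / (3 * q) := by rw [hel]; linarith
      rwa [lt_div_iff₀ (by linarith)] at this
    have hnear := hlim.eventually (h.e_gt_near (el := el) hb (by rw [hE, ← hq]; nlinarith))
    have hRl : Tendsto (fun η => el * (2 + 6 * X (ξs η, η) ^ 2 + G (ξs η, η) * (1 - X (ξs η, η) ^ 2)) -
        4 * (3 + X (ξs η, η) ^ 2 - 2 * G (ξs η, η)) + 2 * (1 - 2 * mf n r X (ξs η, η)) *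
        (2 + 6 * X (ξs η, η) ^ 2 - zf n r E X (ξs η, η) * (3 + X (ξs η, η) ^ 2))) (𝓝[>] ηb)
        (𝓝 (el * (2 + 6 * 0 + q * (1 - 0)) - 4 * (3 + 0 - 2 * q) + 2 * (1 - 2 * q) * (2 + 6 * 0 - q * (3 + 0)))) := by
      have c1 : ∀ c : ℝ, Tendsto (fun _ : ℝ => c) (𝓝[>] ηb) (𝓝 c) := fun c => tendsto_const_nhds
      exact ((((c1 2).add (hXc.const_mul 6)).add (hGc.mul ((c1 1).sub hXc))).const_mul el |>.sub
        ((((c1 3).add hXc).sub (hGc.const_mul 2)).const_mul 4)).add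
        ((((c1 1).sub (hmc.const_mul 2)).const_mul 2).mul (((c1 2).add (hXc.const_mul 6)).sub
          (hzc.mul ((c1 3).add hXc))))
    have hRl2 := hRl.eventually (lt_mem_nhds (a := 0) (by nlinarith))
    have hm2 : ∀ᶠ η in 𝓝[>] ηb, mf n r X (ξs η, η) < 383 / 1000 := hmc.eventually (gt_mem_nhds hq1)
    filter_upwards [hnear, hRl2, hm2, self_mem_nhdsWithin] with η a1 a2 a3 a4
    have hη0 : 0 < η := hb.trans a4
    have hp := g.pos η a4
    obtain ⟨e1, e2, -, -⟩ := Kx_crit h (p := (ξs η, η)) hη0 hp (g.zero η a4) rfl rfl rfl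
    have hc := hcrit η a4
    have hs0 := hc.s0
    refine ⟨?_, ?_, ?_⟩
    · have h1 : el < ef n r E X G (ξs η, η) := by
        unfold ef
        rw [lt_div_iff₀ hs0]; linarith
      have h2 : 0 < G (ξs η, η) := (h.Gpos (ξs η, η) hη0).1
      have h3 : 0 < 2 + 6 * X (ξs η, η) ^ 2 + G (ξs η, η) * (1 - X (ξs η, η) ^ 2) := by
        have := hc.s1
        have : 0 < G (ξs η, η) * (1 - X (ξs η, η) ^ 2) := mul_pos h2 (by linarith)
        linarith
      have h4 : RR (X (ξs η, η) ^ 2) (mf n r X (ξs η, η)) (ef n r E X G (ξs η, η)) =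
          ef n r E X G (ξs η, η) * (2 + 6 * X (ξs η, η) ^ 2 + G (ξs η, η) * (1 - X (ξs η, η) ^ 2)) -
        4 * (3 + X (ξs η, η) ^ 2 - 2 * G (ξs η, η)) + 2 * (1 - 2 * mf n r X (ξs η, η)) *
        (2 + 6 * X (ξs η, η) ^ 2 - zf n r E X (ξs η, η) * (3 + X (ξs η, η) ^ 2)) := by
        unfold RR; rw [← e1, ← e2]
      rw [h4]
      nlinarith [mul_lt_mul_of_pos_right h1 h3]
    · unfold l1; linarith
    · unfold l2; linarith

end

end Pool.Agent.Helper974.StarQ.Star
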