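import Pool.Agent.Helper974.StarQ.StarD

set_option autoImplicit false

open Filter Topology Set

namespace Pool.Agent.Helper974.StarQ.Star

open Pool.Agent.Helper974.StarQ.StarPoly

noncomputable section

variable {n r E X G l : ℝ × ℝ → ℝ}

lemma Sys.l_line_anti (h : Sys n r E X G l) {η : ℝ} (hη : 0 < η) : StrictAntiOn (fun t => l (t, η)) (Ici 0) := by
  apply strictAntiOn_of_deriv_neg (convex_Ici 0)
  · exact fun t _ => (comp_line (h.dl (t, η) hη)).continuousAt.continuousWithinAt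
  · intro t ht
    rw [interior_Ici] at ht
    rw [(comp_line (h.dl (t, η) hη)).deriv]
    have := h.rpos (t, η) hη
    have := (h.Xpos (t, η) hη ht).1
    nlinarith [mul_pos (h.rpos (t, η) hη) this]

lemma logcosh_lt {x y : ℝ} (hx : 0 ≤ x) (hxy : x < y) : Real.log (Real.cosh x) < Real.log (Real.cosh y) := by
  apply Real.log_lt_log (Real.cosh_pos x)
  rw [Real.cosh_lt_cosh, abs_of_nonneg hx, abs_of_pos (by linarith)]
  exact hxy

/-- a level curve `l = L` -/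
structure Lev (l : ℝ × ℝ → ℝ) (L η0 : ℝ) (c : ℝ → ℝ) : Prop where
  L0 : 0 < L
  e0 : 0 < η0
  ax : Real.log (Real.cosh η0) = L
  c0 : c η0 = 0
  pos : ∀ η, η0 < η → 0 < c η
  lev : ∀ η, η0 ≤ η → l (c η, η) = L
  uniq : ∀ p : ℝ × ℝ, 0 ≤ p.1 → 0 < p.2 → l p = L → η0 ≤ p.2 ∧ p.1 = c p.2

theorem Sys.lev (h : Sys n r E X G l) (l0 : ∀ η, 0 < η → l (0, η) = Real.log (Real.cosh η))
    (linf : ∀ η L, 0 < η → 0 < L → ∃ ξ, 0 < ξ ∧ l (ξ, η) < L) {L : ℝ} (hL : 0 < L) :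
    ∃ η0 c, Lev l L η0 c := by
  obtain ⟨η0, hη0, hax⟩ : ∃ η0, 0 < η0 ∧ Real.log (Real.cosh η0) = L := by
    have h1 : 1 < Real.exp L := Real.one_lt_exp_iff.mpr hL
    refine ⟨Real.arsinh (Real.sqrt (Real.exp L ^ 2 - 1)), ?_, ?_⟩
    · rw [Real.arsinh_pos_iff]
      apply Real.sqrt_pos.mpr; nlinarith
    · rw [Real.cosh_arsinh, Real.sq_sqrt (by nlinarith)]
      rw [show 1 + (Real.exp L ^ 2 - 1) = Real.exp L ^ 2 by ring, Real.sqrt_sq (Real.exp_pos L).le, Real.log_exp]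
  have hex : ∀ η, η0 ≤ η → ∃ ξ, 0 ≤ ξ ∧ l (ξ, η) = L := by
    intro η hη
    have hη' : 0 < η := hη0.trans_le hη
    obtain ⟨v, hv, hv2⟩ := linf η L hη' hL
    have h0 : L ≤ l (0, η) := by
      rw [l0 η hη', ← hax]
      rcases hη.lt_or_eq with h1 | h1
      · exact (logcosh_lt hη0.le h1).le
      · rw [h1]
    have hcont : ContinuousOn (fun t => l (t, η)) (Icc 0 v) := fun t _ =>
      (comp_line (h.dl (t, η) hη')).continuousAt.continuousWithinAt
    obtain ⟨ξ, hξ, hξ2⟩ := intermediate_value_Icc' hv.le hcont ⟨hv2.le, h0⟩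
    exact ⟨ξ, hξ.1, hξ2⟩
  choose! c hc using hex
  have huniq : ∀ p : ℝ × ℝ, 0 ≤ p.1 → 0 < p.2 → l p = L → η0 ≤ p.2 ∧ p.1 = c p.2 := by
    rintro ⟨ξ, η⟩ h1 h2 h3
    simp only at h1 h2 ⊢
    have h4 : η0 ≤ η := by
      by_contra hcon
      push Not at hcon
      have h5 : l (ξ, η) ≤ l (0, η) := (h.l_line_anti h2).antitoneOn (mem_Ici.mpr le_rfl) h1 h1
      rw [l0 η h2, h3, ← hax] at h5
      exact absurd (logcosh_lt h2.le hcon) (not_lt.mpr h5)
    refine ⟨h4, ?_⟩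
    obtain ⟨h6, h7⟩ := hc η h4
    exact (h.l_line_anti h2).injOn h1 h6 (by rw [h3, h7])
  refine ⟨η0, c, hL, hη0, hax, ?_, ?_, fun η hη => (hc η hη).2, huniq⟩
  · have := (huniq (0, η0) le_rfl hη0 (by rw [l0 η0 hη0, hax])).2
    simpa using this.symm
  · intro η hη
    obtain ⟨h1, h2⟩ := hc η hη.le
    rcases h1.lt_or_eq with h3 | h3
    · exact h3
    · exfalso
      rw [← h3, l0 η (hη0.trans hη), ← hax] at h2
      exact absurd (logcosh_lt hη0.le hη) (by rw [h2]; exact lt_irrefl _)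

lemma Lev.nonneg {L η0 : ℝ} {c : ℝ → ℝ} (g : Lev l L η0 c) {η : ℝ} (hη : η0 ≤ η) : 0 ≤ c η := by
  rcases hη.lt_or_eq with h | h
  · exact (g.pos η h).le
  · rw [← h, g.c0]

lemma Sys.l_cont_eta (h : Sys n r E X G l) (ξ : ℝ) {η : ℝ} (hη : 0 < η) :
    ContinuousAt (fun t => l (ξ, t)) η := by
  have := (h.dl (ξ, η) hη).continuousAt
  exact ContinuousAt.comp (f := fun η' : ℝ => (ξ, η')) this (by fun_prop)

/-- comparison with the level curve -/
lemma Sys.lt_lev (h : Sys n r E X G l) {L η0 : ℝ} {c : ℝ → ℝ} (g : Lev l L η0 c) {ξ η : ℝ} (hη : η0 ≤ η)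
    (hξ : 0 ≤ ξ) (hl : L < l (ξ, η)) : ξ < c η := by
  by_contra hcon
  push Not at hcon
  have := (h.l_line_anti (g.e0.trans_le hη)).antitoneOn (g.nonneg hη) hξ hcon
  rw [g.lev η hη] at this
  linarith

lemma Sys.gt_lev (h : Sys n r E X G l) {L η0 : ℝ} {c : ℝ → ℝ} (g : Lev l L η0 c) {ξ η : ℝ} (hη : η0 ≤ η)
    (hξ : 0 ≤ ξ) (hl : l (ξ, η) < L) : c η < ξ := by
  by_contra hcon
  push Not at hcon
  have := (h.l_line_anti (g.e0.trans_le hη)).antitoneOn hξ (g.nonneg hη) hcon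
  rw [g.lev η hη] at this
  linarith

lemma Sys.lev_cont (h : Sys n r E X G l) {L η0 : ℝ} {c : ℝ → ℝ} (g : Lev l L η0 c) {η : ℝ} (hη : η0 < η) :
    ContinuousAt c η := by
  have hη0 := g.e0.trans hη
  rw [Metric.continuousAt_iff']
  intro ε hε
  have hp := g.pos η hη
  obtain ⟨δ, hδ⟩ : ∃ δ, δ = min (ε / 2) (c η / 2) := ⟨_, rfl⟩
  have hδ0 : 0 < δ := by rw [hδ]; exact lt_min (half_pos hε) (half_pos hp)
  have hδ1 : δ < ε := by rw [hδ]; exact (min_le_left _ _).trans_lt (half_lt_self hε)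
  have hδ2 : δ < c η := by rw [hδ]; exact (min_le_right _ _).trans_lt (half_lt_self hp)
  have hs := h.l_line_anti hη0
  have k1 : L < l (c η - δ, η) := by
    have := hs (show c η - δ ∈ Ici 0 from by simp only [mem_Ici]; linarith) (show c η ∈ Ici 0 from hp.le)
      (show c η - δ < c η by linarith)
    simp only at this
    rwa [g.lev η hη.le] at this
  have k2 : l (c η + δ, η) < L := by
    have := hs (show c η ∈ Ici 0 from hp.le) (show c η + δ ∈ Ici 0 from by simp only [mem_Ici]; linarith)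
      (show c η < c η + δ by linarith)
    simp only at this
    rwa [g.lev η hη.le] at this
  filter_upwards [(h.l_cont_eta (c η - δ) hη0).eventually (lt_mem_nhds k1),
    (h.l_cont_eta (c η + δ) hη0).eventually (gt_mem_nhds k2), lt_mem_nhds hη] with t h1 h2 h3
  have := h.lt_lev g h3.le (by linarith) h1
  have := h.gt_lev g h3.le (by linarith) h2
  rw [Real.dist_eq, abs_lt]
  constructor <;> linarith

lemma Sys.lev_cont0 (h : Sys n r E X G l) {L η0 : ℝ} {c : ℝ → ℝ} (g : Lev l L η0 c) :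
    ContinuousWithinAt c (Ici η0) η0 := by
  rw [ContinuousWithinAt, Metric.tendsto_nhds]
  intro ε hε
  have hs := h.l_line_anti g.e0
  have k2 : l (ε, η0) < L := by
    have := hs (show (0 : ℝ) ∈ Ici 0 from (mem_Ici.mpr le_rfl)) (show ε ∈ Ici 0 from hε.le) hε
    simp only at this
    have h5 := g.lev η0 le_rfl
    rw [g.c0] at h5
    rwa [h5] at this
  filter_upwards [nhdsWithin_le_nhds ((h.l_cont_eta ε g.e0).eventually (gt_mem_nhds k2)), self_mem_nhdsWithin] with t h1 h2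
  rw [g.c0, Real.dist_eq, sub_zero, abs_of_nonneg (g.nonneg h2)]
  exact h.gt_lev g h2 hε.le h1

lemma Sys.lev_contOn (h : Sys n r E X G l) {L η0 : ℝ} {c : ℝ → ℝ} (g : Lev l L η0 c) : ContinuousOn c (Ici η0) := by
  intro η hη
  rcases (mem_Ici.mp hη).lt_or_eq with h1 | h1
  · exact (h.lev_cont g h1).continuousWithinAt
  · rw [← h1]; exact h.lev_cont0 g

/-- a continuous function along the level curve -/
lemma Sys.comp_contOn (h : Sys n r E X G l) {L η0 : ℝ} {c : ℝ → ℝ} (g : Lev l L η0 c) {F : ℝ × ℝ → ℝ}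
    (hF : ∀ p : ℝ × ℝ, 0 < p.2 → ContinuousAt F p) : ContinuousOn (fun t => F (c t, t)) (Ici η0) := by
  intro η hη
  have h1 : ContinuousWithinAt (fun t => (c t, t)) (Ici η0) η :=
    ((h.lev_contOn g) η hη).prodMk continuousWithinAt_id
  exact ContinuousAt.comp_continuousWithinAt (f := fun t : ℝ => (c t, t)) (hF (c η, η) (g.e0.trans_le hη)) h1

/-- `x` -/
def xf' (r X : ℝ × ℝ → ℝ) (p : ℝ × ℝ) : ℝ := r p * X p
/-- `F = V + 2 x²` -/
def FF (n r X : ℝ × ℝ → ℝ) (p : ℝ × ℝ) : ℝ := r p ^ 2 - 2 * n p * (r p * X p) + 2 * (r p * X p) ^ 2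

theorem Sys.lev_deriv (h : Sys n r E X G l) {L η0 : ℝ} {c : ℝ → ℝ} (g : Lev l L η0 c) {η : ℝ} (hη : η0 < η) :
    ∃ d, 0 < d ∧ HasDerivAt (fun t => xf' r X (c t, t)) d η ∧
      HasDerivAt (fun t => FF n r X (c t, t)) (-(2 / G (c η, η) * d * Kf n r E X G (c η, η))) η := by
  have hη0 : 0 < η := g.e0.trans hη
  have hp := g.pos η hη
  have hr0 := h.rpos (c η, η) hη0
  have hX0 := (h.Xpos (c η, η) hη0 hp).1
  have hX1 := (h.Xpos (c η, η) hη0 hp).2
  have hg0 := (h.Gpos (c η, η) hη0).1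
  have hα : -2 * r (c η, η) * X (c η, η) ≠ 0 := by
    have : 0 < r (c η, η) * X (c η, η) := mul_pos hr0 hX0
    nlinarith
  have hd := implicit_deriv (h.dl (c η, η) hη0) hα (h.lev_cont g hη)
    ((lt_mem_nhds hη).mono fun t ht => g.lev t ht.le)
  have hκ : -(r (c η, η) * (1 + X (c η, η) ^ 2)) / (-2 * r (c η, η) * X (c η, η)) =
      (1 + X (c η, η) ^ 2) / (2 * X (c η, η)) := by
    field_simp
  rw [hκ] at hd
  have hc := h.curve hη0 hd hp rfl rfl rfl rfl rfl rfl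
  obtain ⟨-, -, -, -, -, c6⟩ := hc
  refine ⟨r (c η, η) ^ 2 * G (c η, η) * (1 - X (c η, η) ^ 2) / (2 * X (c η, η)), ?_, ?_, ?_⟩
  · have : 0 < 1 - X (c η, η) ^ 2 := by nlinarith
    positivity
  · refine c6.congr_deriv ?_
    field_simp
    ring
  · have dn := comp_curve (h.dn (c η, η) hη0) hd
    have dr := comp_curve (h.dr (c η, η) hη0) hd
    have d1 := ((dr.pow 2).sub ((dn.const_mul 2).mul c6)).add ((c6.pow 2).const_mul 2)
    refine d1.congr_deriv ?_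
    unfold Kf
    generalize n (c η, η) = N at *
    generalize r (c η, η) = R at *
    generalize X (c η, η) = Y at *
    generalize E (c η, η) = e at *
    generalize G (c η, η) = q at *
    push_cast
    field_simp
    ring

lemma Sys.x_cont (h : Sys n r E X G l) (p : ℝ × ℝ) (hp : 0 < p.2) : ContinuousAt (xf' r X) p :=
  (h.dr p hp).continuousAt.mul (h.dX p hp).continuousAt

lemma Sys.F_cont (h : Sys n r E X G l) (p : ℝ × ℝ) (hp : 0 < p.2) : ContinuousAt (FF n r X) p := by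
  have h1 := (h.dr p hp).continuousAt
  have h2 := (h.dX p hp).continuousAt
  have h3 := (h.dn p hp).continuousAt
  unfold FF
  fun_prop

theorem Sys.lev_x_mono (h : Sys n r E X G l) {L η0 : ℝ} {c : ℝ → ℝ} (g : Lev l L η0 c) :
    StrictMonoOn (fun t => xf' r X (c t, t)) (Ici η0) := by
  apply strictMonoOn_of_deriv_pos (convex_Ici _) (h.comp_contOn g h.x_cont)
  intro t ht
  rw [interior_Ici] at ht
  obtain ⟨d, hd, hd2, -⟩ := h.lev_deriv g ht
  rw [hd2.deriv]; exact hd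

/-- `F` increases along a piece of the level curve where `K < 0` -/
theorem Sys.lev_F_mono (h : Sys n r E X G l) {L η0 : ℝ} {c : ℝ → ℝ} (g : Lev l L η0 c) {D : Set ℝ} (hD : Convex ℝ D)
    (hD0 : D ⊆ Ici η0) (hK : ∀ t ∈ interior D, Kf n r E X G (c t, t) < 0) :
    StrictMonoOn (fun t => FF n r X (c t, t)) D := by
  apply strictMonoOn_of_deriv_pos hD ((h.comp_contOn g h.F_cont).mono hD0)
  intro t ht
  have ht0 : η0 < t := by
    have := interior_mono hD0 ht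
    rwa [interior_Ici] at this
  obtain ⟨d, hd, -, hd2⟩ := h.lev_deriv g ht0
  rw [hd2.deriv]
  have hg0 := (h.Gpos (c t, t) (g.e0.trans ht0)).1
  have : 0 < 2 / G (c t, t) * d := by positivity
  nlinarith [hK t ht]

/-- `F` decreases along a piece of the level curve where `K > 0` -/
theorem Sys.lev_F_anti (h : Sys n r E X G l) {L η0 : ℝ} {c : ℝ → ℝ} (g : Lev l L η0 c) {D : Set ℝ} (hD : Convex ℝ D)
    (hD0 : D ⊆ Ici η0) (hK : ∀ t ∈ interior D, 0 < Kf n r E X G (c t, t)) :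
    StrictAntiOn (fun t => FF n r X (c t, t)) D := by
  apply strictAntiOn_of_deriv_neg hD ((h.comp_contOn g h.F_cont).mono hD0)
  intro t ht
  have ht0 : η0 < t := by
    have := interior_mono hD0 ht
    rwa [interior_Ici] at this
  obtain ⟨d, hd, -, hd2⟩ := h.lev_deriv g ht0
  rw [hd2.deriv]
  have hg0 := (h.Gpos (c t, t) (g.e0.trans ht0)).1
  have : 0 < 2 / G (c t, t) * d := by positivity
  nlinarith [hK t ht]

/-! ### the regimes -/

/-- critical values of `l` -/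
def Lam (l : ℝ × ℝ → ℝ) (ξs : ℝ → ℝ) (η : ℝ) : ℝ := l (ξs η, η)

lemma Sys.Lam_mono (h : Sys n r E X G l) {ηb : ℝ} {ξs : ℝ → ℝ} (g : Gam n r E X G ηb ξs)
    (hyb : y0 r E G ηb = 1) (hGb : G (0, ηb) < 383 / 1000) : StrictMonoOn (Lam l ξs) (Ioi ηb) := by
  apply strictMonoOn_of_deriv_pos (convex_Ioi _)
  · intro t ht
    obtain ⟨d, -, hd⟩ := h.gam_l g hyb hGb ht
    exact hd.continuousAt.continuousWithinAt
  · intro t ht
    rw [interior_Ioi] at ht
    obtain ⟨d, hd0, hd⟩ := h.gam_l g hyb hGb ht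
    have : deriv (Lam l ξs) t = d := hd.deriv
    rw [this]; exact hd0

lemma Sys.Lam_lim (h : Sys n r E X G l) {ηb : ℝ} {ξs : ℝ → ℝ} (g : Gam n r E X G ηb ξs) :
    Tendsto (Lam l ξs) (𝓝[>] ηb) (𝓝 (l (0, ηb))) :=
  ((h.dl (0, ηb) g.b0).continuousAt.tendsto).comp ((h.gam_lim g).mono_right nhdsWithin_le_nhds)

lemma Sys.Lam_gt (h : Sys n r E X G l) {ηb : ℝ} {ξs : ℝ → ℝ} (g : Gam n r E X G ηb ξs)
    (hyb : y0 r E G ηb = 1) (hGb : G (0, ηb) < 383 / 1000) {η : ℝ} (hη : ηb < η) : l (0, ηb) < Lam l ξs η := by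
  have hm := h.Lam_mono g hyb hGb
  obtain ⟨u, hu⟩ := exists_between hη
  have h1 : l (0, ηb) ≤ Lam l ξs u := by
    apply le_of_tendsto (h.Lam_lim g)
    filter_upwards [Ioo_mem_nhdsGT hu.1] with t ht
    exact (hm ht.1 (show u ∈ Ioi ηb from hu.1) ht.2).le
  exact h1.trans_lt (hm hu.1 hη hu.2)

/-- sign of `K` on the level curve -/
lemma K_lev_low {ηb : ℝ} {ξs : ℝ → ℝ} (g' : Gam n r E X G ηb ξs) {L η0 : ℝ} {c : ℝ → ℝ} (g : Lev l L η0 c)
    {η : ℝ} (hη : η0 < η) (hb : η ≤ ηb) : 0 < Kf n r E X G (c η, η) :=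
  g'.low η (g.e0.trans hη) hb _ (g.pos η hη)

lemma Sys.K_lev_neg (h : Sys n r E X G l) {ηb : ℝ} {ξs : ℝ → ℝ} (g' : Gam n r E X G ηb ξs) {L η0 : ℝ}
    {c : ℝ → ℝ} (g : Lev l L η0 c) {η : ℝ} (hη : η0 < η) (hb : ηb < η) (hL : Lam l ξs η < L) :
    Kf n r E X G (c η, η) < 0 :=
  g'.neg η hb _ (g.pos η hη) (h.gt_lev g hη.le (g'.pos η hb).le hL)

lemma Sys.K_lev_pos (h : Sys n r E X G l) {ηb : ℝ} {ξs : ℝ → ℝ} (g' : Gam n r E X G ηb ξs) {L η0 : ℝ}
    {c : ℝ → ℝ} (g : Lev l L η0 c) {η : ℝ} (hη : η0 < η) (hb : ηb < η) (hL : L < Lam l ξs η) :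
    0 < Kf n r E X G (c η, η) :=
  g'.plus η hb _ (h.lt_lev g hη.le (g'.pos η hb).le hL)

/-- regime 1: `L ≤ l (0, ηb)` -/
theorem Sys.regime1 (h : Sys n r E X G l) {ηb : ℝ} {ξs : ℝ → ℝ} (g' : Gam n r E X G ηb ξs)
    (hyb : y0 r E G ηb = 1) (hGb : G (0, ηb) < 383 / 1000) {L η0 : ℝ} {c : ℝ → ℝ} (g : Lev l L η0 c)
    (hL : L ≤ l (0, ηb)) {η : ℝ} (hη : η0 < η) : 0 < Kf n r E X G (c η, η) := by
  rcases le_or_gt η ηb with hb | hb
  · exact K_lev_low g' g hη hb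
  · exact h.K_lev_pos g' g hη hb (hL.trans_lt (h.Lam_gt g' hyb hGb hb))

lemma eta0_gt {ηb : ℝ} (l0 : ∀ η, 0 < η → l (0, η) = Real.log (Real.cosh η)) (hb : 0 < ηb) {L η0 : ℝ}
    {c : ℝ → ℝ} (g : Lev l L η0 c) (hL : l (0, ηb) < L) : ηb < η0 := by
  by_contra hcon
  push Not at hcon
  rw [l0 ηb hb, ← g.ax] at hL
  rcases hcon.lt_or_eq with h1 | h1
  · have := logcosh_lt g.e0.le h1; linarith
  · rw [h1] at hL; exact lt_irrefl _ hL

/-- regime 2: all critical values are below `L` -/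
theorem Sys.regime2 (h : Sys n r E X G l) {ηb : ℝ} {ξs : ℝ → ℝ} (g' : Gam n r E X G ηb ξs)
    (l0 : ∀ η, 0 < η → l (0, η) = Real.log (Real.cosh η)) {L η0 : ℝ} {c : ℝ → ℝ} (g : Lev l L η0 c)
    (hL0 : l (0, ηb) < L) (hL : ∀ η, ηb < η → Lam l ξs η < L) {η : ℝ} (hη : η0 < η) :
    Kf n r E X G (c η, η) < 0 := by
  have hb := (eta0_gt l0 g'.b0 g hL0).trans hη
  exact h.K_lev_neg g' g hη hb (hL η hb)

/-- regime 3: `L` is a critical value -/
theorem Sys.regime3 (h : Sys n r E X G l) {ηb : ℝ} {ξs : ℝ → ℝ} (g' : Gam n r E X G ηb ξs)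
    (hyb : y0 r E G ηb = 1) (hGb : G (0, ηb) < 383 / 1000)
    (l0 : ∀ η, 0 < η → l (0, η) = Real.log (Real.cosh η)) {L η0 : ℝ} {c : ℝ → ℝ} (g : Lev l L η0 c)
    (hL0 : l (0, ηb) < L) {ηs : ℝ} (hs : ηb < ηs) (hsL : Lam l ξs ηs = L) :
    η0 < ηs ∧ Kf n r E X G (c ηs, ηs) = 0 ∧ (∀ η, η0 < η → η < ηs → Kf n r E X G (c η, η) < 0) ∧
      (∀ η, ηs < η → 0 < Kf n r E X G (c η, η)) := by
  have hb0 := eta0_gt l0 g'.b0 g hL0
  have hm := h.Lam_mono g' hyb hGb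
  have hηs0 : 0 < ηs := g'.b0.trans hs
  have h1 : η0 < ηs := by
    obtain ⟨h2, h3⟩ := g.uniq (ξs ηs, ηs) (g'.pos ηs hs).le hηs0 hsL
    rcases h2.lt_or_eq with h4 | h4
    · exact h4
    · exfalso
      simp only at h3 h4
      rw [← h4, g.c0] at h3
      have := g'.pos ηs hs
      rw [← h4, h3] at this
      exact lt_irrefl _ this
  have h2 : c ηs = ξs ηs := (g.uniq (ξs ηs, ηs) (g'.pos ηs hs).le hηs0 hsL).2.symm
  refine ⟨h1, by rw [h2]; exact g'.zero ηs hs, ?_, ?_⟩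
  · intro η h3 h4
    have hb := hb0.trans h3
    exact h.K_lev_neg g' g h3 hb (by rw [← hsL]; exact hm hb hs h4)
  · intro η h3
    have hb := hs.trans h3
    exact h.K_lev_pos g' g (h1.trans h3) hb (by rw [← hsL]; exact hm hs hb h3)

/-- the critical values form an interval -/
theorem Sys.Lam_range (h : Sys n r E X G l) {ηb : ℝ} {ξs : ℝ → ℝ} (g' : Gam n r E X G ηb ξs)
    (hyb : y0 r E G ηb = 1) (hGb : G (0, ηb) < 383 / 1000) {L : ℝ} (hL0 : l (0, ηb) < L) :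
    (∃ ηs, ηb < ηs ∧ Lam l ξs ηs = L) ∨ ∀ η, ηb < η → Lam l ξs η < L := by
  by_contra hcon
  push Not at hcon
  obtain ⟨h1, η, h2, h3⟩ := hcon
  obtain ⟨u, hu, hu2⟩ := (((h.Lam_lim g').eventually (gt_mem_nhds hL0)).and
    (Ioo_mem_nhdsGT h2)).exists
  have hcont : ContinuousOn (Lam l ξs) (Icc u η) := by
    intro t ht
    obtain ⟨d, -, hd⟩ := h.gam_l g' hyb hGb (show ηb < t from lt_of_lt_of_le hu2.1 ht.1)
    exact hd.continuousAt.continuousWithinAt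
  obtain ⟨t, ht, ht2⟩ := intermediate_value_Icc hu2.2.le hcont ⟨hu.le, h3⟩
  exact h1 t (lt_of_lt_of_le hu2.1 ht.1) ht2

end

end Pool.Agent.Helper974.StarQ.Star
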