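import Pool.Agent.Helper974.Star.S1

set_option autoImplicit false

open Filter Topology Metric Set MeasureTheory

namespace Pool.Agent.Helper974.StarQ.Star

open Pool.Agent.Helper974.Star

theorem U_mem_s2 {a b : ℝ} (hba : b < a) (ψ : ℝ) : b ≤ U a b ψ ∧ U a b ψ ≤ a := by
  unfold U
  have h1 := Real.neg_one_le_cos ψ
  have h2 := Real.cos_le_one ψ
  constructor <;> nlinarith

theorem D_pos_s2 {a b : ℝ} (hb : -1 < b) (hba : b < a) (ha : a < 1) (ψ : ℝ) :
    0 < 1 - U a b ψ ^ 2 := by
  obtain ⟨h1, h2⟩ := U_mem_s2 hba ψ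
  nlinarith

/-- the weight -/
noncomputable def w_s2 (a b ψ : ℝ) : ℝ := 1 / Real.sqrt (1 - U a b ψ ^ 2)

theorem U_cont_s2 (a b : ℝ) : Continuous (U a b) := by
  unfold U; fun_prop

theorem w_pos_s2 {a b : ℝ} (hb : -1 < b) (hba : b < a) (ha : a < 1) (ψ : ℝ) :
    0 < w_s2 a b ψ := by
  unfold w_s2
  have := Real.sqrt_pos.2 (D_pos_s2 hb hba ha ψ)
  positivity

theorem w_cont_s2 {a b : ℝ} (hb : -1 < b) (hba : b < a) (ha : a < 1) :
    Continuous (w_s2 a b) := by
  unfold w_s2
  refine Continuous.div continuous_const ?_ ?_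
  · exact (continuous_const.sub ((U_cont_s2 a b).pow 2)).sqrt
  · intro ψ
    exact (Real.sqrt_pos.2 (D_pos_s2 hb hba ha ψ)).ne'

theorem EI_eq_s2 (F : ℝ → ℝ) (a b : ℝ) : EI F a b =
    ∫ ψ in (0 : ℝ)..Real.pi, F (U a b ψ) * w_s2 a b ψ := by
  unfold EI w_s2
  refine intervalIntegral.integral_congr fun ψ _ => ?_
  rw [mul_one_div]

theorem U_refl_s2 (a b ψ : ℝ) : U a b (Real.pi - ψ) = (a + b) / 2 - (a - b) / 2 * Real.cos ψ := by
  unfold U
  rw [Real.cos_pi_sub]; ring

/-- sign of the weighted cosine integral -/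
theorem key_s2 {a b : ℝ} (hb : -1 < b) (hba : b < a) (ha : a < 1) (hab : a + b < 0)
    {g : ℝ → ℝ} (hg : Continuous g) (hg0 : ∀ ψ, 0 ≤ g ψ) (hgs : ∀ ψ, g (Real.pi - ψ) = g ψ)
    (hgp : 0 < g (Real.pi / 3)) :
    ∫ ψ in (0 : ℝ)..Real.pi, Real.cos ψ * g ψ * w_s2 a b ψ < 0 := by
  have hwc := w_cont_s2 hb hba ha
  have hfc : Continuous (fun ψ => Real.cos ψ * g ψ * w_s2 a b ψ) :=
    (Real.continuous_cos.mul hg).mul hwc
  have hsub : ∫ ψ in (0 : ℝ)..Real.pi, Real.cos ψ * g ψ * w_s2 a b ψ =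
      ∫ ψ in (0 : ℝ)..Real.pi, -(Real.cos ψ * g ψ * w_s2 a b (Real.pi - ψ)) := by
    have h1 := intervalIntegral.integral_comp_sub_left (a := 0) (b := Real.pi)
      (fun ψ => Real.cos ψ * g ψ * w_s2 a b ψ) Real.pi
    rw [sub_self, sub_zero] at h1
    rw [← h1]
    refine intervalIntegral.integral_congr fun ψ _ => ?_
    rw [Real.cos_pi_sub, hgs]; ring
  have hfc2 : Continuous (fun ψ => -(Real.cos ψ * g ψ * w_s2 a b (Real.pi - ψ))) :=
    ((Real.continuous_cos.mul hg).mul (hwc.comp (continuous_const.sub continuous_id))).neg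
  have h2 : 2 * ∫ ψ in (0 : ℝ)..Real.pi, Real.cos ψ * g ψ * w_s2 a b ψ =
      - ∫ ψ in (0 : ℝ)..Real.pi, Real.cos ψ * g ψ * (w_s2 a b (Real.pi - ψ) - w_s2 a b ψ) := by
    have h3 : ∫ ψ in (0 : ℝ)..Real.pi, Real.cos ψ * g ψ * (w_s2 a b (Real.pi - ψ) - w_s2 a b ψ) =
        - (∫ ψ in (0 : ℝ)..Real.pi, -(Real.cos ψ * g ψ * w_s2 a b (Real.pi - ψ))) -
        ∫ ψ in (0 : ℝ)..Real.pi, Real.cos ψ * g ψ * w_s2 a b ψ := by
      have hfc3 : Continuous (fun ψ => - -(Real.cos ψ * g ψ * w_s2 a b (Real.pi - ψ))) :=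
        hfc2.neg
      rw [← intervalIntegral.integral_neg, ← intervalIntegral.integral_sub
        (hfc3.intervalIntegrable _ _) (hfc.intervalIntegrable _ _)]
      refine intervalIntegral.integral_congr fun ψ _ => ?_
      ring
    rw [h3, ← hsub]; ring
  have hsign : ∀ ψ, (0 < Real.cos ψ → w_s2 a b ψ < w_s2 a b (Real.pi - ψ)) ∧
      (Real.cos ψ < 0 → w_s2 a b (Real.pi - ψ) < w_s2 a b ψ) := by
    intro ψ
    have hD1 := D_pos_s2 hb hba ha ψ
    have hD2 := D_pos_s2 hb hba ha (Real.pi - ψ)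
    have hU2 := U_refl_s2 a b ψ
    have hU1 : U a b ψ = (a + b) / 2 + (a - b) / 2 * Real.cos ψ := rfl
    have hdiff : U a b (Real.pi - ψ) ^ 2 - U a b ψ ^ 2 =
        -((a + b) * (a - b) * Real.cos ψ) := by
      rw [hU1, hU2]; ring
    have hr : 0 < a - b := by linarith
    unfold w_s2
    constructor
    · intro hc
      refine one_div_lt_one_div_of_lt (Real.sqrt_pos.2 hD2) (Real.sqrt_lt_sqrt hD2.le ?_)
      have : 0 < -((a + b) * (a - b) * Real.cos ψ) := by
        have h1 : 0 < (-(a + b)) * (a - b) * Real.cos ψ := by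
          have : 0 < -(a + b) := by linarith
          positivity
        linarith
      linarith
    · intro hc
      refine one_div_lt_one_div_of_lt (Real.sqrt_pos.2 hD1) (Real.sqrt_lt_sqrt hD1.le ?_)
      have : -((a + b) * (a - b) * Real.cos ψ) < 0 := by
        have h1 : 0 < (-(a + b)) * (a - b) * (-Real.cos ψ) := by
          have h2 : 0 < -(a + b) := by linarith
          have h3 : 0 < -Real.cos ψ := by linarith
          positivity
        linarith
      linarith
  have hpos : 0 < ∫ ψ in (0 : ℝ)..Real.pi,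
      Real.cos ψ * g ψ * (w_s2 a b (Real.pi - ψ) - w_s2 a b ψ) := by
    refine intervalIntegral.integral_pos Real.pi_pos ?_ ?_ ?_
    · exact (((Real.continuous_cos.mul hg).mul
        ((hwc.comp (continuous_const.sub continuous_id)).sub hwc))).continuousOn
    · intro ψ _
      have hgψ := hg0 ψ
      rcases lt_trichotomy (Real.cos ψ) 0 with h | h | h
      · have h1 := (hsign ψ).2 h
        have h2 : 0 ≤ (-Real.cos ψ) * g ψ * (w_s2 a b ψ - w_s2 a b (Real.pi - ψ)) :=
          mul_nonneg (mul_nonneg (by linarith) hgψ) (by linarith)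
        linarith
      · rw [h]; simp
      · have h1 := (hsign ψ).1 h
        exact mul_nonneg (mul_nonneg h.le hgψ) (by linarith)
    · refine ⟨Real.pi / 3, ⟨by positivity, by linarith [Real.pi_pos]⟩, ?_⟩
      have hc : 0 < Real.cos (Real.pi / 3) := by rw [Real.cos_pi_div_three]; norm_num
      have h1 := (hsign (Real.pi / 3)).1 hc
      exact mul_pos (mul_pos hc hgp) (by linarith)
  linarith

theorem EI1_pos_s2 {a b : ℝ} (hb : -1 < b) (hba : b < a) (ha : a < 1) :
    0 < EI (fun _ => 1) a b := by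
  rw [EI_eq_s2]
  refine intervalIntegral.intervalIntegral_pos_of_pos_on ?_ ?_ Real.pi_pos
  · exact (continuous_const.mul (w_cont_s2 hb hba ha)).intervalIntegrable _ _
  · intro ψ _
    rw [one_mul]; exact w_pos_s2 hb hba ha ψ

theorem ab_s2 (a b ψ : ℝ) : (a - U a b ψ) * (U a b ψ - b) =
    ((a - b) / 2) ^ 2 * Real.sin ψ ^ 2 := by
  rw [Real.sin_sq]; unfold U; ring

theorem Q_pos_s2 {a b : ℝ} (hb : -1 < b) (hba : b < a) (ha : a < 1) :
    0 < EI (fun u => (a - u) * (u - b)) a b := by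
  rw [EI_eq_s2]
  simp only [ab_s2]
  refine intervalIntegral.intervalIntegral_pos_of_pos_on ?_ ?_ Real.pi_pos
  · exact ((continuous_const.mul (Real.continuous_sin.pow 2)).mul
      (w_cont_s2 hb hba ha)).intervalIntegrable _ _
  · intro ψ hψ
    have h1 := Real.sin_pos_of_mem_Ioo hψ
    have h2 := w_pos_s2 hb hba ha ψ
    have h3 : 0 < a - b := by linarith
    positivity

theorem S2_TT {a b : ℝ} (hb : -1 < b) (hba : b < a) (ha : a < 1) (hab : a + b < 0) : TT a b < (a + b) / 2 := by
  have hE := EI1_pos_s2 hb hba ha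
  have hwc := w_cont_s2 hb hba ha
  have hk := key_s2 hb hba ha hab (g := fun _ => 1) continuous_const (fun _ => zero_le_one)
    (fun _ => rfl) one_pos
  unfold TT mean
  rw [div_lt_iff₀ hE]
  have h1 : EI (fun u => u) a b = (a + b) / 2 * EI (fun _ => 1) a b +
      (a - b) / 2 * ∫ ψ in (0 : ℝ)..Real.pi, Real.cos ψ * 1 * w_s2 a b ψ := by
    rw [EI_eq_s2, EI_eq_s2, ← intervalIntegral.integral_const_mul,
      ← intervalIntegral.integral_const_mul, ← intervalIntegral.integral_add]
    · refine intervalIntegral.integral_congr fun ψ _ => ?_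
      simp only [U]
      ring
    · exact (continuous_const.mul (continuous_const.mul hwc)).intervalIntegrable _ _
    · exact (continuous_const.mul ((Real.continuous_cos.mul continuous_const).mul
        hwc)).intervalIntegrable _ _
  rw [h1]
  have : 0 < (a - b) / 2 := by linarith
  nlinarith

theorem S2_cc {a b : ℝ} (hb : -1 < b) (hba : b < a) (ha : a < 1) (hab : a + b < 0) : cc a b < (a + b) / 2 := by
  have hE := EI1_pos_s2 hb hba ha
  have hQ := Q_pos_s2 hb hba ha
  have hwc := w_cont_s2 hb hba ha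
  have hs : 0 < Real.sin (Real.pi / 3) := by rw [Real.sin_pi_div_three]; positivity
  have hr : 0 < a - b := by linarith
  have hk := key_s2 hb hba ha hab (g := fun ψ => ((a - b) / 2) ^ 2 * Real.sin ψ ^ 2)
    (continuous_const.mul (Real.continuous_sin.pow 2)) (fun ψ => by positivity)
    (fun ψ => by simp only [Real.sin_pi_sub]) (by positivity)
  have hcc : cc a b = EI (fun u => u * ((a - u) * (u - b))) a b /
      EI (fun u => (a - u) * (u - b)) a b := by
    unfold cc qq mean
    field_simp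
  rw [hcc, div_lt_iff₀ hQ]
  have h1 : EI (fun u => u * ((a - u) * (u - b))) a b =
      (a + b) / 2 * EI (fun u => (a - u) * (u - b)) a b +
      (a - b) / 2 * ∫ ψ in (0 : ℝ)..Real.pi,
        Real.cos ψ * (((a - b) / 2) ^ 2 * Real.sin ψ ^ 2) * w_s2 a b ψ := by
    rw [EI_eq_s2, EI_eq_s2]
    simp only [ab_s2]
    rw [← intervalIntegral.integral_const_mul,
      ← intervalIntegral.integral_const_mul, ← intervalIntegral.integral_add]
    · refine intervalIntegral.integral_congr fun ψ _ => ?_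
      simp only [U]
      ring
    · exact (continuous_const.mul ((continuous_const.mul (Real.continuous_sin.pow 2)).mul
        hwc)).intervalIntegrable _ _
    · exact (continuous_const.mul ((Real.continuous_cos.mul
        (continuous_const.mul (Real.continuous_sin.pow 2))).mul hwc)).intervalIntegrable _ _
  rw [h1]
  have : 0 < (a - b) / 2 := by linarith
  nlinarith

theorem S2_qq {a b : ℝ} (hb : -1 < b) (hba : b < a) (ha : a < 1) : qq a b < ((a - b) / 2) ^ 2 := by
  have hE := EI1_pos_s2 hb hba ha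
  have hwc := w_cont_s2 hb hba ha
  have hr : 0 < a - b := by linarith
  unfold qq mean
  rw [div_lt_iff₀ hE]
  have hpos : 0 < ∫ ψ in (0 : ℝ)..Real.pi,
      ((a - b) / 2) ^ 2 * Real.cos ψ ^ 2 * w_s2 a b ψ := by
    refine intervalIntegral.integral_pos Real.pi_pos ?_ ?_ ?_
    · exact ((continuous_const.mul (Real.continuous_cos.pow 2)).mul hwc).continuousOn
    · intro ψ _
      have := w_pos_s2 hb hba ha ψ
      positivity
    · refine ⟨Real.pi / 3, ⟨by positivity, by linarith [Real.pi_pos]⟩, ?_⟩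
      have hc : 0 < Real.cos (Real.pi / 3) := by rw [Real.cos_pi_div_three]; norm_num
      have := w_pos_s2 hb hba ha (Real.pi / 3)
      positivity
  have h1 : ((a - b) / 2) ^ 2 * EI (fun _ => 1) a b = EI (fun u => (a - u) * (u - b)) a b +
      ∫ ψ in (0 : ℝ)..Real.pi, ((a - b) / 2) ^ 2 * Real.cos ψ ^ 2 * w_s2 a b ψ := by
    rw [EI_eq_s2, EI_eq_s2]
    simp only [ab_s2]
    rw [← intervalIntegral.integral_const_mul, ← intervalIntegral.integral_add]
    · refine intervalIntegral.integral_congr fun ψ _ => ?_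
      rw [Real.sin_sq]
      ring
    · exact ((continuous_const.mul (Real.continuous_sin.pow 2)).mul hwc).intervalIntegrable _ _
    · exact ((continuous_const.mul (Real.continuous_cos.pow 2)).mul hwc).intervalIntegrable _ _
  rw [h1]
  linarith

theorem S2_le {a b T : ℝ} (hb : -1 < b) (hba : b < a) (ha : a ≤ 0) (hT1 : b ≤ T) (hT2 : T ≤ a) :
    lv a b T ≤ a - b := by
  have hbd : ∀ t ∈ Icc (0:ℝ) 1, (pr a b T t - 1) / t ≤ a - b := by
    intro t ht
    rcases eq_or_lt_of_le ht.1 with h0 | h0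
    · rw [← h0, div_zero]; linarith
    · rw [div_le_iff₀ h0]
      have hA : 1 ≤ 1 - 2 * a * t + t ^ 2 := by nlinarith
      have hAB : 1 - 2 * b * t + t ^ 2 = (1 - 2 * a * t + t ^ 2) + 2 * (a - b) * t := by ring
      have hd : 0 < (a - b) * t := mul_pos (by linarith) h0
      have hB : 0 < 1 - 2 * b * t + t ^ 2 := by rw [hAB]; linarith
      have hA0 : 0 < 1 - 2 * a * t + t ^ 2 := by linarith
      have hsA : 0 < Real.sqrt (1 - 2 * a * t + t ^ 2) := Real.sqrt_pos.2 hA0
      have hsB : 0 < Real.sqrt (1 - 2 * b * t + t ^ 2) := Real.sqrt_pos.2 hB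
      have hpr : pr a b T t ≤ 1 + (a - b) * t := by
        unfold pr
        rw [div_le_iff₀ (mul_pos hsA hsB)]
        have h1 : 1 - 2 * T * t + t ^ 2 ≤ 1 - 2 * b * t + t ^ 2 := by nlinarith
        have h2 : Real.sqrt (1 - 2 * b * t + t ^ 2) ≤
            (1 + (a - b) * t) * Real.sqrt (1 - 2 * a * t + t ^ 2) := by
          rw [Real.sqrt_le_iff]
          refine ⟨by positivity, ?_⟩
          rw [mul_pow, Real.sq_sqrt hA0.le, hAB]
          nlinarith [mul_nonneg (sq_nonneg ((a - b) * t)) hA0.le]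
        have h3 : 1 - 2 * b * t + t ^ 2 = Real.sqrt (1 - 2 * b * t + t ^ 2) *
            Real.sqrt (1 - 2 * b * t + t ^ 2) := (Real.mul_self_sqrt hB.le).symm
        calc 1 - 2 * T * t + t ^ 2 ≤ 1 - 2 * b * t + t ^ 2 := h1
          _ = Real.sqrt (1 - 2 * b * t + t ^ 2) * Real.sqrt (1 - 2 * b * t + t ^ 2) := h3
          _ ≤ ((1 + (a - b) * t) * Real.sqrt (1 - 2 * a * t + t ^ 2)) *
              Real.sqrt (1 - 2 * b * t + t ^ 2) := mul_le_mul_of_nonneg_right h2 hsB.le
          _ = _ := by ring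
      linarith
  unfold lv
  by_cases hint : IntervalIntegrable (fun t => (pr a b T t - 1) / t) volume 0 1
  · have h1 := intervalIntegral.integral_mono_on zero_le_one hint
      (intervalIntegrable_const (c := a - b)) hbd
    rw [intervalIntegral.integral_const] at h1
    simpa using h1
  · rw [intervalIntegral.integral_undef hint]; linarith

end Pool.Agent.Helper974.StarQ.Star
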