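import Pool.Agent.Helper974.StarQ.StarI1
import Pool.Agent.Helper974.StarQ.StarI2
import Pool.Agent.Helper974.StarQ.StarD

set_option autoImplicit false

open Filter Topology Set

namespace Pool.Agent.Helper974.StarQ.Star

open Pool.Agent.Helper974.Star

noncomputable section

lemma hB2 : HB2 := fun hb hba ha => facts hb hba ha

lemma hB3 : HB3 := by
  intro a b hb hba ha T q A B D S al be h1 h2 h3 h4 h5 h6 h7 h8
  exact B3M.B3_TTqq (fun h1 h2 _ _ hb hba ha => B1M.B1_deriv h1 h2 hb hba ha)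
    (fun hb hba ha _ _ _ _ _ h0 h1 h2 h3 h4 => B2M.B2_rel hb hba ha h0 h1 h2 h3 h4) hb hba ha h1 h2 h3 h4 h5 h6 h7 h8

lemma tanh_lt' {x y : ℝ} (h : x < y) : Real.tanh x < Real.tanh y := S1_tanh_lt h

lemma rf_pos {p : ℝ × ℝ} (hp : 0 < p.2) : 0 < rf p := by
  have := (S1_mem p hp).2.1
  unfold rf; linarith

lemma af_eq (p : ℝ × ℝ) : af p = rf p - nf p := by unfold rf nf; ring
lemma bf_eq (p : ℝ × ℝ) : bf p = -rf p - nf p := by unfold rf nf; ring

lemma nf_pos {p : ℝ × ℝ} (hp1 : 0 < p.1) : 0 < nf p := by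
  have : Real.tanh (p.2 - p.1) < Real.tanh (p.2 + p.1) := tanh_lt' (by linarith)
  unfold nf af bf; linarith

lemma qq_eq {p : ℝ × ℝ} (hp : 0 < p.2) : qq (af p) (bf p) = rf p ^ 2 * Gf p := by
  have := rf_pos hp
  unfold Gf; field_simp

lemma xx_eq {p : ℝ × ℝ} (hp : 0 < p.2) : xx (af p) (bf p) = rf p * Xf p := by
  have := rf_pos hp
  unfold Xf; field_simp

lemma TT_eq {p : ℝ × ℝ} (hp : 0 < p.2) : TT (af p) (bf p) = -nf p - rf p * Xf p := by
  have h1 := xx_eq hp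
  unfold xx at h1
  have h2 : (af p + bf p) / 2 = -nf p := by unfold nf; ring
  rw [h2] at h1; linarith

/-- the relation between `cc` and the other averages -/
lemma H_eq {p : ℝ × ℝ} (hp : 0 < p.2) :
    2 * nf p - Ef p * Xf p / rf p - 3 * nf p * Gf p = -2 * Gf p * (cc (af p) (bf p) + nf p) := by
  obtain ⟨h1, h2, h3⟩ := S1_mem p hp
  obtain ⟨-, -, -, -, -, h4⟩ := facts h1 h2 h3
  have hr := rf_pos hp
  rw [qq_eq hp, TT_eq hp, af_eq, bf_eq] at h4
  rw [af_eq, bf_eq]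
  generalize cc (rf p - nf p) (-rf p - nf p) = c at *
  have e : Ef p = 1 - nf p ^ 2 - rf p ^ 2 := rfl
  rw [e]
  generalize nf p = n at *
  generalize rf p = r at *
  generalize Xf p = X at *
  generalize Gf p = G at *
  have h5 : r * G * (4 * c - 2 * n) = 2 * (1 - n ^ 2 - r ^ 2) * X - 4 * n * r := by
    have : r * (r * G * (4 * c - 2 * n)) = r * (2 * (1 - n ^ 2 - r ^ 2) * X - 4 * n * r) := by
      nlinarith
    exact mul_left_cancel₀ hr.ne' this
  field_simp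
  nlinarith

lemma Ef_eq (p : ℝ × ℝ) : Ef p = 1 - nf p ^ 2 - rf p ^ 2 := rfl

lemma mem_axis_a {η : ℝ} : af (0, η) = Real.tanh η ∧ bf (0, η) = -Real.tanh η := by
  unfold af bf; simp

lemma tanh_mem {η : ℝ} (hη : 0 < η) : 0 < Real.tanh η ∧ Real.tanh η < 1 := by
  constructor
  · have := tanh_lt' hη
    rwa [Real.tanh_zero] at this
  · exact Real.tanh_lt_one η

theorem sysf : Sys nf rf Ef Xf Gf lf where
  hE := Ef_eq
  rpos p hp := rf_pos hp
  bd p hp hp1 := by
    have e : nf p + rf p = -bf p := by unfold nf rf; ring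
    rw [e]; linarith [(S1_mem p hp).1]
  Gpos p hp := by
    obtain ⟨h1, h2, h3⟩ := S1_mem p hp
    have hr := rf_pos hp
    have h4 := (facts h1 h2 h3).1
    have h5 := S2_qq h1 h2 h3
    have e : ((af p - bf p) / 2) ^ 2 = rf p ^ 2 := rfl
    rw [e] at h5
    unfold Gf
    constructor
    · positivity
    · rw [div_lt_one (by positivity)]; exact h5
  n0 η _ := by unfold nf; rw [mem_axis_a.1, mem_axis_a.2]; ring
  X0 η hη := by
    unfold Xf xx
    rw [mem_axis_a.1, mem_axis_a.2, (B5M.B11_sym (tanh_mem hη).1 (tanh_mem hη).2).1]; simp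
  npos p _ hp1 := nf_pos hp1
  Xpos p hp hp1 := by
    obtain ⟨h1, h2, h3⟩ := S1_mem p hp
    have hr := rf_pos hp
    have hn := nf_pos hp1
    have h4 := S2_TT h1 h2 h3 (by unfold nf at hn; linarith)
    have h5 := (facts h1 h2 h3).2.1
    unfold Xf xx
    constructor
    · apply div_pos _ hr; linarith
    · rw [div_lt_one hr]; unfold rf; linarith
  Hpos p hp hp1 := by
    obtain ⟨h1, h2, h3⟩ := S1_mem p hp
    have hr := rf_pos hp
    have hn := nf_pos hp1
    have h4 := S2_cc h1 h2 h3 (by unfold nf at hn; linarith)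
    rw [H_eq hp]
    have h6 : 0 < Gf p := by
      have := (facts h1 h2 h3).1
      unfold Gf; positivity
    have h7 : cc (af p) (bf p) + nf p < 0 := by unfold nf; linarith
    nlinarith
  dn p _ := (S1_dnr p).1
  dr p _ := (S1_dnr p).2
  dX p hp := (S1_dXG hB3 hB2 p hp).1
  dG p hp := (S1_dXG hB3 hB2 p hp).2
  dl p hp := S1_dl hB3 hB2 (fun hΩ _ _ hV hx hL hh hpos hpair => B6M.B6_pair hΩ hV hx hL hh hpos hpair)
    (fun _ _ _ _ hb hba ha hb' hba' ha' => pair_ineq hb hba ha hb' hba' ha') p hp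

lemma one_sub_tanh_sq (η : ℝ) : 1 - Real.tanh η ^ 2 = 1 / Real.cosh η ^ 2 := by
  have h := Real.cosh_pos η
  rw [Real.tanh_eq_sinh_div_cosh]
  have := Real.cosh_sq η
  field_simp
  linarith

lemma lf_axis {η : ℝ} (hη : 0 < η) : lf (0, η) = Real.log (Real.cosh η) := by
  unfold lf
  rw [mem_axis_a.1, mem_axis_a.2, (B5M.B11_sym (tanh_mem hη).1 (tanh_mem hη).2).2, one_sub_tanh_sq]
  have h := Real.cosh_pos η
  rw [Real.log_div one_ne_zero (by positivity), Real.log_one, Real.log_pow]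
  push_cast; ring

lemma nr_eq {p : ℝ × ℝ} : nf p = Real.sinh (2 * p.1) / (2 * Real.cosh (p.2 + p.1) * Real.cosh (p.2 - p.1)) ∧
    rf p = Real.sinh (2 * p.2) / (2 * Real.cosh (p.2 + p.1) * Real.cosh (p.2 - p.1)) := by
  have h1 := Real.cosh_pos (p.2 + p.1)
  have h2 := Real.cosh_pos (p.2 - p.1)
  have e1 : Real.sinh (2 * p.1) = Real.sinh (p.2 + p.1) * Real.cosh (p.2 - p.1) -
      Real.cosh (p.2 + p.1) * Real.sinh (p.2 - p.1) := by
    rw [← Real.sinh_sub]; congr 1; ring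
  have e2 : Real.sinh (2 * p.2) = Real.sinh (p.2 + p.1) * Real.cosh (p.2 - p.1) +
      Real.cosh (p.2 + p.1) * Real.sinh (p.2 - p.1) := by
    rw [← Real.sinh_add]; congr 1; ring
  unfold nf rf af bf
  rw [Real.tanh_eq_sinh_div_cosh, Real.tanh_eq_sinh_div_cosh, e1, e2]
  constructor
  · field_simp; ring
  · field_simp; ring

lemma ninf {η : ℝ} (hη : 0 < η) : Tendsto (fun ξ => nf (ξ, η) / rf (ξ, η)) atTop atTop := by
  have hs : 0 < Real.sinh (2 * η) := Real.sinh_pos_iff.mpr (by linarith)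
  have e : (fun ξ => nf (ξ, η) / rf (ξ, η)) = fun ξ => Real.sinh (2 * ξ) / Real.sinh (2 * η) := by
    funext ξ
    rw [(nr_eq (p := (ξ, η))).1, (nr_eq (p := (ξ, η))).2]
    have h1 := Real.cosh_pos (η + ξ)
    have h2 := Real.cosh_pos (η - ξ)
    simp only
    field_simp
  rw [e]
  apply Tendsto.atTop_div_const hs
  apply tendsto_atTop_mono' _ _ (tendsto_id (α := ℝ))
  filter_upwards [eventually_ge_atTop (0 : ℝ)] with ξ hξ
  have : 2 * ξ ≤ Real.sinh (2 * ξ) := Real.self_le_sinh_iff.mpr (by linarith)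
  simp only [id]
  linarith

lemma linf {η L : ℝ} (hη : 0 < η) (hL : 0 < L) : ∃ ξ, 0 < ξ ∧ lf (ξ, η) < L := by
  have h1 := (ninf hη).eventually_gt_atTop (2 / L)
  obtain ⟨ξ, hξ, hξ2⟩ := (h1.and (eventually_gt_atTop η)).exists
  refine ⟨ξ, by linarith, ?_⟩
  obtain ⟨m1, m2, m3⟩ := S1_mem (ξ, η) hη
  have ha : af (ξ, η) ≤ 0 := by
    unfold af
    have := tanh_lt' (show η - ξ < 0 by linarith)
    rw [Real.tanh_zero] at this
    exact this.le
  obtain ⟨-, t1, t2, -⟩ := facts m1 m2 m3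
  have h2 : lf (ξ, η) ≤ af (ξ, η) - bf (ξ, η) := S2_le m1 m2 ha t1.le t2.le
  have hr := rf_pos (p := (ξ, η)) hη
  have hb := sysf.bd (ξ, η) hη (by linarith : (0 : ℝ) ≤ ξ)
  have h3 : 2 * rf (ξ, η) < L := by
    rw [lt_div_iff₀ hr, div_mul_eq_mul_div, div_lt_iff₀ hL] at hξ
    nlinarith
  have e : af (ξ, η) - bf (ξ, η) = 2 * rf (ξ, η) := by unfold rf; ring
  linarith

/-- `y0` in terms of `qq` -/
lemma y0_eq {η : ℝ} (hη : 0 < η) : y0 rf Ef Gf η =
    ((Real.tanh η * Real.sqrt (1 - Real.tanh η ^ 2)) / qq (Real.tanh η) (-Real.tanh η)) ^ 2 := by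
  obtain ⟨h1, h2⟩ := tanh_mem hη
  have hq := (facts (a := Real.tanh η) (b := -Real.tanh η) (by linarith) (by linarith) h2).1
  have hS : Real.sqrt (1 - Real.tanh η ^ 2) ^ 2 = 1 - Real.tanh η ^ 2 := Real.sq_sqrt (by nlinarith)
  unfold y0 Ef Gf nf rf
  rw [mem_axis_a.1, mem_axis_a.2]
  generalize Real.sqrt (1 - Real.tanh η ^ 2) = S at *
  generalize qq (Real.tanh η) (-Real.tanh η) = q at *
  generalize Real.tanh η = T at *
  have e1 : (T - -T) / 2 = T := by ring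
  have e2 : (T + -T) = 0 := by ring
  have e3 : (T * S / q) ^ 2 = T ^ 2 * S ^ 2 / q ^ 2 := by field_simp
  rw [e1, e2, e3, hS]
  field_simp
  ring

end

end Pool.Agent.Helper974.StarQ.Star
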