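import Pool.Agent.Helper974.Star.S1
import Pool.Agent.Helper974.StarQ.StarSys

set_option autoImplicit false

open Filter Topology Metric Set MeasureTheory

namespace Pool.Agent.Helper974.StarQ.Star

noncomputable section

open Pool.Agent.Helper974.Star


def af (p : ℝ × ℝ) : ℝ := Real.tanh (p.2 - p.1)
def bf (p : ℝ × ℝ) : ℝ := -Real.tanh (p.2 + p.1)
def nf (p : ℝ × ℝ) : ℝ := -(af p + bf p) / 2
def rf (p : ℝ × ℝ) : ℝ := (af p - bf p) / 2
def Ef (p : ℝ × ℝ) : ℝ := 1 - nf p ^ 2 - rf p ^ 2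
def Xf (p : ℝ × ℝ) : ℝ := xx (af p) (bf p) / rf p
def Gf (p : ℝ × ℝ) : ℝ := qq (af p) (bf p) / rf p ^ 2
def lf (p : ℝ × ℝ) : ℝ := ll (af p) (bf p)

/-- partial derivatives of `TT` and `qq` (proved elsewhere) -/
def HB3 : Prop := ∀ {a b : ℝ}, -1 < b → b < a → a < 1 → ∀ {T q A B D S al be : ℝ},
    T = TT a b → q = qq a b → A = 1 - a ^ 2 → B = 1 - b ^ 2 → D = a - b → S = a + b → al = a - T → be = T - b →
    HasFDerivAt (fun p : ℝ × ℝ => TT p.1 p.2)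
      ((1 / 2 + al * (S * al + 2 * q) / (2 * A * D)) • ContinuousLinearMap.fst ℝ ℝ ℝ +
       (1 / 2 + be * (2 * q - S * be) / (2 * B * D)) • ContinuousLinearMap.snd ℝ ℝ ℝ) (a, b) ∧
    HasFDerivAt (fun p : ℝ × ℝ => qq p.1 p.2)
      ((be / 2 - q * (S * al + 2 * q) / (2 * A * D)) • ContinuousLinearMap.fst ℝ ℝ ℝ +
       (-al / 2 + q * (2 * q - S * be) / (2 * B * D)) • ContinuousLinearMap.snd ℝ ℝ ℝ) (a, b)

/-- elementary relations (proved elsewhere) -/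
def HB2 : Prop := ∀ {a b : ℝ}, -1 < b → b < a → a < 1 →
    0 < qq a b ∧ b < TT a b ∧ TT a b < a ∧ b < cc a b ∧ cc a b < a ∧
    qq a b * (4 * cc a b + (a + b)) = (1 - b ^ 2) * (a - TT a b) - (1 - a ^ 2) * (TT a b - b)

theorem S1_LF_apply (α β : ℝ) (v : ℝ × ℝ) : LF α β v = α * v.1 + β * v.2 := by
  simp [LF]

theorem S1_hadd {f g : ℝ × ℝ → ℝ} {a b c d : ℝ} {p : ℝ × ℝ} (hf : HasFDerivAt f (LF a b) p)
    (hg : HasFDerivAt g (LF c d) p) : HasFDerivAt (fun z => f z + g z) (LF (a + c) (b + d)) p := by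
  refine (hf.add hg).congr_fderiv (ContinuousLinearMap.ext fun v => ?_)
  simp only [ContinuousLinearMap.add_apply, S1_LF_apply]
  ring

theorem S1_hsub {f g : ℝ × ℝ → ℝ} {a b c d : ℝ} {p : ℝ × ℝ} (hf : HasFDerivAt f (LF a b) p)
    (hg : HasFDerivAt g (LF c d) p) : HasFDerivAt (fun z => f z - g z) (LF (a - c) (b - d)) p := by
  refine (hf.sub hg).congr_fderiv (ContinuousLinearMap.ext fun v => ?_)
  simp only [ContinuousLinearMap.sub_apply, S1_LF_apply]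
  ring

theorem S1_hmul {f g : ℝ × ℝ → ℝ} {a b c d : ℝ} {p : ℝ × ℝ} (hf : HasFDerivAt f (LF a b) p)
    (hg : HasFDerivAt g (LF c d) p) :
    HasFDerivAt (fun z => f z * g z) (LF (f p * c + g p * a) (f p * d + g p * b)) p := by
  refine (hf.mul hg).congr_fderiv (ContinuousLinearMap.ext fun v => ?_)
  simp only [ContinuousLinearMap.add_apply, ContinuousLinearMap.smul_apply, S1_LF_apply, smul_eq_mul]
  ring

theorem S1_hconst (c : ℝ) {f : ℝ × ℝ → ℝ} {a b : ℝ} {p : ℝ × ℝ} (hf : HasFDerivAt f (LF a b) p) :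
    HasFDerivAt (fun z => c * f z) (LF (c * a) (c * b)) p := by
  refine (hf.const_mul c).congr_fderiv (ContinuousLinearMap.ext fun v => ?_)
  simp only [ContinuousLinearMap.smul_apply, S1_LF_apply, smul_eq_mul]
  ring

theorem S1_hdiv {f g : ℝ × ℝ → ℝ} {a b c d : ℝ} {p : ℝ × ℝ} (hf : HasFDerivAt f (LF a b) p)
    (hg : HasFDerivAt g (LF c d) p) (h0 : g p ≠ 0) :
    HasFDerivAt (fun z => f z / g z) (LF ((a * g p - f p * c) / g p ^ 2) ((b * g p - f p * d) / g p ^ 2)) p := by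
  have h1 : HasFDerivAt (fun z => (g z)⁻¹) (LF (-c / g p ^ 2) (-d / g p ^ 2)) p := by
    refine ((hasDerivAt_inv h0).comp_hasFDerivAt p hg).congr_fderiv (ContinuousLinearMap.ext fun v => ?_)
    simp only [ContinuousLinearMap.smul_apply, S1_LF_apply, smul_eq_mul]
    ring
  have h2 := S1_hmul hf h1
  have h3 : LF (f p * (-c / g p ^ 2) + (g p)⁻¹ * a) (f p * (-d / g p ^ 2) + (g p)⁻¹ * b) =
      LF ((a * g p - f p * c) / g p ^ 2) ((b * g p - f p * d) / g p ^ 2) := by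
    congr 1
    · field_simp; ring
    · field_simp; ring
  rw [h3] at h2
  simpa only [div_eq_mul_inv] using h2

theorem S1_hcomp {F : ℝ × ℝ → ℝ} {f g : ℝ × ℝ → ℝ} {c1 c2 a b c d : ℝ} {p : ℝ × ℝ}
    (hF : HasFDerivAt F (c1 • ContinuousLinearMap.fst ℝ ℝ ℝ + c2 • ContinuousLinearMap.snd ℝ ℝ ℝ) (f p, g p))
    (hf : HasFDerivAt f (LF a b) p) (hg : HasFDerivAt g (LF c d) p) :
    HasFDerivAt (fun z => F (f z, g z)) (LF (c1 * a + c2 * c) (c1 * b + c2 * d)) p := by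
  refine (HasFDerivAt.comp p (f := fun z => (f z, g z)) hF (hf.prodMk hg)).congr_fderiv
    (ContinuousLinearMap.ext fun v => ?_)
  simp only [ContinuousLinearMap.comp_apply, ContinuousLinearMap.add_apply, ContinuousLinearMap.smul_apply,
    ContinuousLinearMap.prod_apply, ContinuousLinearMap.coe_fst', ContinuousLinearMap.coe_snd', S1_LF_apply, smul_eq_mul]
  ring

theorem S1_tanh_lt {x y : ℝ} (h : x < y) : Real.tanh x < Real.tanh y := by
  have h1 := Real.artanh_lt_artanh_iff (x := Real.tanh x) (y := Real.tanh y)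
    ⟨Real.neg_one_lt_tanh x, Real.tanh_lt_one x⟩ ⟨Real.neg_one_lt_tanh y, Real.tanh_lt_one y⟩
  rw [Real.artanh_tanh, Real.artanh_tanh] at h1
  exact h1.1 h

theorem S1_tanh_deriv (x : ℝ) : HasDerivAt Real.tanh (1 - Real.tanh x ^ 2) x := by
  have h1 : HasDerivAt (fun y => Real.sinh y / Real.cosh y)
      ((Real.cosh x * Real.cosh x - Real.sinh x * Real.sinh x) / Real.cosh x ^ 2) x :=
    (Real.hasDerivAt_sinh x).div (Real.hasDerivAt_cosh x) (Real.cosh_pos x).ne'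
  have h2 : (fun y => Real.sinh y / Real.cosh y) = Real.tanh := by
    funext y; rw [Real.tanh_eq_sinh_div_cosh]
  rw [h2] at h1
  have h3 : (Real.cosh x * Real.cosh x - Real.sinh x * Real.sinh x) / Real.cosh x ^ 2 = 1 - Real.tanh x ^ 2 := by
    rw [Real.tanh_eq_sinh_div_cosh]
    have := (Real.cosh_pos x).ne'
    field_simp
  rwa [h3] at h1

theorem S1_mem (p : ℝ × ℝ) (hp : 0 < p.2) : -1 < bf p ∧ bf p < af p ∧ af p < 1 := by
  refine ⟨?_, ?_, Real.tanh_lt_one _⟩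
  · unfold bf
    have := Real.tanh_lt_one (p.2 + p.1)
    linarith
  · unfold bf af
    rw [← Real.tanh_neg]
    exact S1_tanh_lt (by linarith)

theorem S1_daf (p : ℝ × ℝ) : HasFDerivAt af (LF (-(1 - af p ^ 2)) (1 - af p ^ 2)) p := by
  have h1 : HasFDerivAt (fun z : ℝ × ℝ => z.2 - z.1) (LF (-1) 1) p := by
    refine ((hasFDerivAt_snd (𝕜 := ℝ) (E := ℝ) (F := ℝ)).sub hasFDerivAt_fst).congr_fderiv
      (ContinuousLinearMap.ext fun v => ?_)
    simp only [ContinuousLinearMap.sub_apply, ContinuousLinearMap.coe_fst', ContinuousLinearMap.coe_snd', S1_LF_apply]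
    ring
  refine ((S1_tanh_deriv (p.2 - p.1)).comp_hasFDerivAt p h1).congr_fderiv (ContinuousLinearMap.ext fun v => ?_)
  simp only [ContinuousLinearMap.smul_apply, S1_LF_apply, smul_eq_mul, af]
  ring

theorem S1_dbf (p : ℝ × ℝ) : HasFDerivAt bf (LF (-(1 - bf p ^ 2)) (-(1 - bf p ^ 2))) p := by
  have h1 : HasFDerivAt (fun z : ℝ × ℝ => z.2 + z.1) (LF 1 1) p := by
    refine ((hasFDerivAt_snd (𝕜 := ℝ) (E := ℝ) (F := ℝ)).add hasFDerivAt_fst).congr_fderiv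
      (ContinuousLinearMap.ext fun v => ?_)
    simp only [ContinuousLinearMap.add_apply, ContinuousLinearMap.coe_fst', ContinuousLinearMap.coe_snd', S1_LF_apply]
    ring
  refine (((S1_tanh_deriv (p.2 + p.1)).comp_hasFDerivAt p h1).neg).congr_fderiv (ContinuousLinearMap.ext fun v => ?_)
  simp only [ContinuousLinearMap.neg_apply, ContinuousLinearMap.smul_apply, S1_LF_apply, smul_eq_mul, bf]
  ring

theorem S1_dnr (p : ℝ × ℝ) : HasFDerivAt nf (LF (Ef p) (-2 * rf p * nf p)) p ∧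
    HasFDerivAt rf (LF (-2 * rf p * nf p) (Ef p)) p := by
  have ha := S1_daf p
  have hb := S1_dbf p
  constructor
  · have h := S1_hconst (-1 / 2) (S1_hadd ha hb)
    have e1 : (fun z => -1 / 2 * (af z + bf z)) = nf := by
      funext z; unfold nf; ring
    rw [e1] at h
    convert h using 2
    · unfold Ef nf rf; ring
    · unfold nf rf; ring
  · have h := S1_hconst (1 / 2) (S1_hsub ha hb)
    have e1 : (fun z => 1 / 2 * (af z - bf z)) = rf := by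
      funext z; unfold rf; ring
    rw [e1] at h
    convert h using 2
    · unfold nf rf; ring
    · unfold Ef nf rf; ring

theorem S1_base (h2 : HB2) (p : ℝ × ℝ) (hp : 0 < p.2) : 0 < rf p ∧ 0 < 1 - af p ^ 2 ∧ 0 < 1 - bf p ^ 2 ∧
    0 < Gf p ∧ af p = rf p - nf p ∧ bf p = -rf p - nf p ∧ TT (af p) (bf p) = -nf p - rf p * Xf p ∧
    qq (af p) (bf p) = rf p ^ 2 * Gf p := by
  obtain ⟨m1, m2, m3⟩ := S1_mem p hp
  obtain ⟨q0, -⟩ := h2 m1 m2 m3
  have hr : 0 < rf p := by unfold rf; linarith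
  have hr' := hr.ne'
  refine ⟨hr, ?_, ?_, ?_, ?_, ?_, ?_, ?_⟩
  · nlinarith
  · nlinarith
  · unfold Gf; positivity
  · unfold rf nf; ring
  · unfold rf nf; ring
  · unfold Xf
    rw [mul_div_cancel₀ _ hr']
    unfold xx nf; ring
  · unfold Gf
    field_simp

theorem S1_algT1 {n r X G : ℝ} (hr : 0 < r) (hA : 0 < 1 - (r - n) ^ 2) (hB : 0 < 1 - (-r - n) ^ 2) :
    (1 / 2 + (r - n - (-n - r * X)) * ((r - n + (-r - n)) * (r - n - (-n - r * X)) + 2 * (r ^ 2 * G)) /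
      (2 * (1 - (r - n) ^ 2) * (r - n - (-r - n)))) * -(1 - (r - n) ^ 2) +
    (1 / 2 + (-n - r * X - (-r - n)) * (2 * (r ^ 2 * G) - (r - n + (-r - n)) * (-n - r * X - (-r - n))) /
      (2 * (1 - (-r - n) ^ 2) * (r - n - (-r - n)))) * -(1 - (-r - n) ^ 2) =
    -(1 - n ^ 2 - r ^ 2) - r ^ 2 * G + 2 * n * r * X := by
  have e1 : r - n - (-r - n) = 2 * r := by ring
  rw [e1]
  generalize hA' : 1 - (r - n) ^ 2 = A at hA ⊢
  generalize hB' : 1 - (-r - n) ^ 2 = B at hB ⊢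
  field_simp
  rw [← hA', ← hB']
  ring

theorem S1_algT2 {n r X G : ℝ} (hr : 0 < r) (hA : 0 < 1 - (r - n) ^ 2) (hB : 0 < 1 - (-r - n) ^ 2) :
    (1 / 2 + (r - n - (-n - r * X)) * ((r - n + (-r - n)) * (r - n - (-n - r * X)) + 2 * (r ^ 2 * G)) /
      (2 * (1 - (r - n) ^ 2) * (r - n - (-r - n)))) * (1 - (r - n) ^ 2) +
    (1 / 2 + (-n - r * X - (-r - n)) * (2 * (r ^ 2 * G) - (r - n + (-r - n)) * (-n - r * X - (-r - n))) /
      (2 * (1 - (-r - n) ^ 2) * (r - n - (-r - n)))) * -(1 - (-r - n) ^ 2) =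
    n * r * (1 - X ^ 2) + r ^ 2 * X * G := by
  have e1 : r - n - (-r - n) = 2 * r := by ring
  rw [e1]
  generalize hA' : 1 - (r - n) ^ 2 = A at hA ⊢
  generalize hB' : 1 - (-r - n) ^ 2 = B at hB ⊢
  field_simp
  rw [← hA', ← hB']
  ring

theorem S1_dT (h3 : HB3) (h2 : HB2) (p : ℝ × ℝ) (hp : 0 < p.2) :
    HasFDerivAt (fun z => TT (af z) (bf z)) (LF (-(1 - nf p ^ 2 - rf p ^ 2) - rf p ^ 2 * Gf p + 2 * nf p * rf p * Xf p)
      (nf p * rf p * (1 - Xf p ^ 2) + rf p ^ 2 * Xf p * Gf p)) p := by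
  obtain ⟨hr, hA, hB, hG, ea, eb, eT, eq⟩ := S1_base h2 p hp
  obtain ⟨m1, m2, m3⟩ := S1_mem p hp
  have h := (h3 m1 m2 m3 rfl rfl rfl rfl rfl rfl rfl rfl).1
  have hT := S1_hcomp h (S1_daf p) (S1_dbf p)
  rw [eT, eq, ea, eb] at hT
  rw [ea] at hA
  rw [eb] at hB
  rw [S1_algT1 hr hA hB, S1_algT2 hr hA hB] at hT
  exact hT

theorem S1_algq1 {n r X G : ℝ} (hr : 0 < r) (hA : 0 < 1 - (r - n) ^ 2) (hB : 0 < 1 - (-r - n) ^ 2) :
    ((-n - r * X - (-r - n)) / 2 - (r ^ 2 * G) * ((r - n + (-r - n)) * (r - n - (-n - r * X)) + 2 * (r ^ 2 * G)) /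
      (2 * (1 - (r - n) ^ 2) * (r - n - (-r - n)))) * -(1 - (r - n) ^ 2) +
    (-(r - n - (-n - r * X)) / 2 + (r ^ 2 * G) * (2 * (r ^ 2 * G) - (r - n + (-r - n)) * (-n - r * X - (-r - n))) /
      (2 * (1 - (-r - n) ^ 2) * (r - n - (-r - n)))) * -(1 - (-r - n) ^ 2) =
    (1 - n ^ 2 - r ^ 2) * r * X - 2 * r ^ 2 * n - n * r ^ 2 * G := by
  have e1 : r - n - (-r - n) = 2 * r := by ring
  rw [e1]
  generalize hA' : 1 - (r - n) ^ 2 = A at hA ⊢
  generalize hB' : 1 - (-r - n) ^ 2 = B at hB ⊢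
  field_simp
  rw [← hA', ← hB']
  ring

theorem S1_algq2 {n r X G : ℝ} (hr : 0 < r) (hA : 0 < 1 - (r - n) ^ 2) (hB : 0 < 1 - (-r - n) ^ 2) :
    ((-n - r * X - (-r - n)) / 2 - (r ^ 2 * G) * ((r - n + (-r - n)) * (r - n - (-n - r * X)) + 2 * (r ^ 2 * G)) /
      (2 * (1 - (r - n) ^ 2) * (r - n - (-r - n)))) * (1 - (r - n) ^ 2) +
    (-(r - n - (-n - r * X)) / 2 + (r ^ 2 * G) * (2 * (r ^ 2 * G) - (r - n + (-r - n)) * (-n - r * X - (-r - n))) /
      (2 * (1 - (-r - n) ^ 2) * (r - n - (-r - n)))) * -(1 - (-r - n) ^ 2) =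
    (1 - n ^ 2 - r ^ 2) * r - 2 * r ^ 2 * n * X + n * X * r ^ 2 * G - r ^ 3 * G ^ 2 := by
  have e1 : r - n - (-r - n) = 2 * r := by ring
  rw [e1]
  generalize hA' : 1 - (r - n) ^ 2 = A at hA ⊢
  generalize hB' : 1 - (-r - n) ^ 2 = B at hB ⊢
  field_simp
  rw [← hA', ← hB']
  ring

theorem S1_dq (h3 : HB3) (h2 : HB2) (p : ℝ × ℝ) (hp : 0 < p.2) :
    HasFDerivAt (fun z => qq (af z) (bf z)) (LF ((1 - nf p ^ 2 - rf p ^ 2) * rf p * Xf p - 2 * rf p ^ 2 * nf p - nf p * rf p ^ 2 * Gf p)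
      ((1 - nf p ^ 2 - rf p ^ 2) * rf p - 2 * rf p ^ 2 * nf p * Xf p + nf p * Xf p * rf p ^ 2 * Gf p - rf p ^ 3 * Gf p ^ 2)) p := by
  obtain ⟨hr, hA, hB, hG, ea, eb, eT, eq⟩ := S1_base h2 p hp
  obtain ⟨m1, m2, m3⟩ := S1_mem p hp
  have h := (h3 m1 m2 m3 rfl rfl rfl rfl rfl rfl rfl rfl).2
  have hT := S1_hcomp h (S1_daf p) (S1_dbf p)
  rw [eT, eq, ea, eb] at hT
  rw [ea] at hA
  rw [eb] at hB
  rw [S1_algq1 hr hA hB, S1_algq2 hr hA hB] at hT
  exact hT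

theorem S1_dXG (h3 : HB3) (h2 : HB2) (p : ℝ × ℝ) (hp : 0 < p.2) :
    HasFDerivAt Xf
    (LF (rf p * Gf p) (nf p * (1 + Xf p ^ 2) - rf p * Xf p * Gf p - Xf p * Ef p / rf p)) p ∧
    HasFDerivAt Gf
    (LF (-(2 * nf p - Ef p * Xf p / rf p - 3 * nf p * Gf p))
      (Ef p * (1 - 2 * Gf p) / rf p - nf p * Xf p * (2 - Gf p) - rf p * Gf p ^ 2)) p := by
  obtain ⟨hr, hA, hB, hG, ea, eb, eT, eq⟩ := S1_base h2 p hp
  have hr' := hr.ne'
  obtain ⟨dn, dr⟩ := S1_dnr p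
  have dT := S1_dT h3 h2 p hp
  have dq := S1_dq h3 h2 p hp
  constructor
  · have h := S1_hdiv (S1_hsub (S1_hconst (-1) dn) dT) dr hr'
    have e1 : (fun z => (-1 * nf z - TT (af z) (bf z)) / rf z) = Xf := by
      funext z; unfold Xf xx nf; ring
    rw [e1] at h
    have e2 : -1 * nf p - TT (af p) (bf p) = rf p * Xf p := by rw [eT]; ring
    rw [e2] at h
    convert h using 2
    · unfold Ef
      field_simp
      ring
    · unfold Ef
      field_simp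
      ring
  · have h := S1_hdiv dq (S1_hmul dr dr) (mul_ne_zero hr' hr')
    have e1 : (fun z => qq (af z) (bf z) / (rf z * rf z)) = Gf := by
      funext z; unfold Gf; ring
    rw [e1] at h
    rw [eq] at h
    convert h using 2
    · unfold Ef
      field_simp
      ring
    · unfold Ef
      field_simp
      ring

theorem S1_algl1 {n r X G c A B PA PB : ℝ} (hA : A = 1 - (r - n) ^ 2) (hB : B = 1 - (-r - n) ^ 2)
    (hPA : PA = A / 2 + (1 + X) * (-n * r * (1 + X) + r ^ 2 * G) / 2)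
    (hPB : PB = B / 2 + (1 - X) * (r ^ 2 * G + n * r * (1 - X)) / 2)
    (hc : G * (4 * c - 2 * n) * r = 2 * ((1 - n ^ 2 - r ^ 2) * X - 2 * r * n)) :
    ((3 / 2 * (-2 * n) - (-n - r * X)) * A - (-2 * n) * PA - (-r - n) * A) +
    ((3 / 2 * (-2 * n) - (-n - r * X)) * B - (-2 * n) * PB - (r - n) * B) +
    (4 * n - 4 * c) * ((A / 2 - PA) + (B / 2 - PB)) = 2 * r * X * (2 - 2 * r ^ 2 - 4 * n * c) := by
  subst hPA hPB hA hB
  linear_combination r * hc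

theorem S1_algl2 {n r X G c A B PA PB : ℝ} (hA : A = 1 - (r - n) ^ 2) (hB : B = 1 - (-r - n) ^ 2)
    (hPA : PA = A / 2 + (1 + X) * (-n * r * (1 + X) + r ^ 2 * G) / 2)
    (hPB : PB = B / 2 + (1 - X) * (r ^ 2 * G + n * r * (1 - X)) / 2)
    (hc : G * (4 * c - 2 * n) * r = 2 * ((1 - n ^ 2 - r ^ 2) * X - 2 * r * n)) :
    ((3 / 2 * (-2 * n) - (-n - r * X)) * A - (-2 * n) * PA - (-r - n) * A) -
    ((3 / 2 * (-2 * n) - (-n - r * X)) * B - (-2 * n) * PB - (r - n) * B) +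
    (4 * n - 4 * c) * ((A / 2 - PA) - (B / 2 - PB)) = r * (1 + X ^ 2) * (2 - 2 * r ^ 2 - 4 * n * c) := by
  subst hPA hPB hA hB
  linear_combination r * X * hc

theorem S1_hcpos {a b c : ℝ} (hb : -1 < b) (hab : b < a) (ha : a < 1) (h1 : b < c) (h2 : c < a) :
    0 < 2 - (a - b) ^ 2 / 2 + 2 * c * (a + b) := by
  have e1 : a ^ 2 < 1 := by nlinarith
  have e2 : b ^ 2 < 1 := by nlinarith
  rcases le_or_gt 0 (a + b) with h | h
  · have := mul_nonneg (sub_nonneg.2 h1.le) h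
    nlinarith [sq_nonneg (a + b)]
  · have := mul_nonneg (sub_nonneg.2 h2.le) (neg_nonneg.2 h.le)
    nlinarith [sq_nonneg (a + b)]

theorem S1_open : IsOpen {z : ℝ × ℝ | -1 < z.2 ∧ z.2 < z.1 ∧ z.1 < 1} :=
  (isOpen_lt continuous_const continuous_snd).inter
    ((isOpen_lt continuous_snd continuous_fst).inter (isOpen_lt continuous_fst continuous_const))

theorem S1_cccont (h3 : HB3) (h2 : HB2) {a b : ℝ} (hb : -1 < b) (hab : b < a) (ha : a < 1) :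
    ContinuousAt (fun z : ℝ × ℝ => cc z.1 z.2) (a, b) := by
  obtain ⟨dT, dq⟩ := (h3 hb hab ha rfl rfl rfl rfl rfl rfl rfl rfl)
  have cT := dT.continuousAt
  have cq := dq.continuousAt
  obtain ⟨q0, -⟩ := h2 hb hab ha
  have hcont : ContinuousAt (fun z : ℝ × ℝ => ((1 - z.2 ^ 2) * (z.1 - TT z.1 z.2) - (1 - z.1 ^ 2) * (TT z.1 z.2 - z.2)) /
      (4 * qq z.1 z.2) - (z.1 + z.2) / 4) (a, b) := by
    have c1 : ContinuousAt (fun z : ℝ × ℝ => z.1) (a, b) := continuous_fst.continuousAt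
    have c2 : ContinuousAt (fun z : ℝ × ℝ => z.2) (a, b) := continuous_snd.continuousAt
    refine ContinuousAt.sub (ContinuousAt.div ?_ (continuousAt_const.mul cq) (by positivity)) ((c1.add c2).div_const 4)
    exact ((continuousAt_const.sub (c2.pow 2)).mul (c1.sub cT)).sub ((continuousAt_const.sub (c1.pow 2)).mul (cT.sub c2))
  refine hcont.congr ?_
  filter_upwards [S1_open.mem_nhds (show (a, b) ∈ {z : ℝ × ℝ | -1 < z.2 ∧ z.2 < z.1 ∧ z.1 < 1} from ⟨hb, hab, ha⟩)] with z hz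
  obtain ⟨q1, -, -, -, -, e⟩ := h2 hz.1 hz.2.1 hz.2.2
  rw [← e]
  field_simp
  ring

theorem S1_algP1 {n r X G : ℝ} (hr : 0 < r) (hA : 0 < 1 - (r - n) ^ 2) :
    (1 / 2 + (r - n - (-n - r * X)) * ((r - n + (-r - n)) * (r - n - (-n - r * X)) + 2 * (r ^ 2 * G)) /
      (2 * (1 - (r - n) ^ 2) * (r - n - (-r - n)))) * (1 - (r - n) ^ 2) =
    (1 - (r - n) ^ 2) / 2 + (1 + X) * (-n * r * (1 + X) + r ^ 2 * G) / 2 := by
  have e1 : r - n - (-r - n) = 2 * r := by ring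
  rw [e1]
  generalize hA' : 1 - (r - n) ^ 2 = A at hA ⊢
  field_simp
  ring

theorem S1_algP2 {n r X G : ℝ} (hr : 0 < r) (hB : 0 < 1 - (-r - n) ^ 2) :
    (1 / 2 + (-n - r * X - (-r - n)) * (2 * (r ^ 2 * G) - (r - n + (-r - n)) * (-n - r * X - (-r - n))) /
      (2 * (1 - (-r - n) ^ 2) * (r - n - (-r - n)))) * (1 - (-r - n) ^ 2) =
    (1 - (-r - n) ^ 2) / 2 + (1 - X) * (r ^ 2 * G + n * r * (1 - X)) / 2 := by
  have e1 : r - n - (-r - n) = 2 * r := by ring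
  rw [e1]
  generalize hB' : 1 - (-r - n) ^ 2 = B at hB ⊢
  field_simp
  ring

/-- derivative of `ll` in the `(a, b)` variables -/
theorem S1_dll (h3 : HB3) (h2 : HB2)
    (h6 : ∀ {V x L h l : ℝ × ℝ → ℝ} {Ω : Set (ℝ × ℝ)} {p : ℝ × ℝ}, Ω ∈ 𝓝 p →
      ∀ {V' x' : ℝ × ℝ →L[ℝ] ℝ}, HasFDerivAt V V' p → HasFDerivAt x x' p →
      ContinuousAt L p → ContinuousAt h p → 0 < h p →
      (∀ p₁ ∈ Ω, ∀ p₂ ∈ Ω, V p₂ ≤ V p₁ - L p₁ * (x p₂ - x p₁) + h p₁ * (l p₂ - l p₁)) →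
      HasFDerivAt l ((1 / h p) • (V' + L p • x')) p)
    (hpair : ∀ a b a' b' : ℝ, -1 < b → b < a → a < 1 → -1 < b' → b' < a' → a' < 1 →
      Vc a' b' ≤ Vc a b - Lc a b * (xx a' b' - xx a b) + hc a b * (ll a' b' - ll a b))
    {a b Ta Tb : ℝ} (hb : -1 < b) (hab : b < a) (ha : a < 1)
    (hT : HasFDerivAt (fun p : ℝ × ℝ => TT p.1 p.2) (LF Ta Tb) (a, b)) :
    HasFDerivAt (fun z : ℝ × ℝ => ll z.1 z.2)
      (LF (((3 / 2 * (a + b) - TT a b) - (a + b) * Ta - b + Lc a b * (1 / 2 - Ta)) / hc a b)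
        (((3 / 2 * (a + b) - TT a b) - (a + b) * Tb - a + Lc a b * (1 / 2 - Tb)) / hc a b)) (a, b) := by
  have d1 : HasFDerivAt (fun z : ℝ × ℝ => z.1) (LF 1 0) (a, b) := by
    refine (hasFDerivAt_fst (𝕜 := ℝ) (E := ℝ) (F := ℝ)).congr_fderiv (ContinuousLinearMap.ext fun v => ?_)
    simp only [ContinuousLinearMap.coe_fst', S1_LF_apply]
    ring
  have d2 : HasFDerivAt (fun z : ℝ × ℝ => z.2) (LF 0 1) (a, b) := by
    refine (hasFDerivAt_snd (𝕜 := ℝ) (E := ℝ) (F := ℝ)).congr_fderiv (ContinuousLinearMap.ext fun v => ?_)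
    simp only [ContinuousLinearMap.coe_snd', S1_LF_apply]
    ring
  have dx : HasFDerivAt (fun z : ℝ × ℝ => xx z.1 z.2) (LF (1 / 2 - Ta) (1 / 2 - Tb)) (a, b) := by
    have h := S1_hsub (S1_hconst (1 / 2) (S1_hadd d1 d2)) hT
    have e1 : (fun z : ℝ × ℝ => 1 / 2 * (z.1 + z.2) - TT z.1 z.2) = fun z => xx z.1 z.2 := by
      funext z; unfold xx; ring
    rw [e1] at h
    convert h using 2
    · ring
    · ring
  have dV : HasFDerivAt (fun z : ℝ × ℝ => Vc z.1 z.2) (LF ((3 / 2 * (a + b) - TT a b) - (a + b) * Ta - b)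
      ((3 / 2 * (a + b) - TT a b) - (a + b) * Tb - a)) (a, b) := by
    have h := S1_hsub (S1_hsub (S1_hconst (3 / 4) (S1_hmul (S1_hadd d1 d2) (S1_hadd d1 d2))) (S1_hmul (S1_hadd d1 d2) hT))
      (S1_hmul d1 d2)
    have e1 : (fun z : ℝ × ℝ => 3 / 4 * ((z.1 + z.2) * (z.1 + z.2)) - (z.1 + z.2) * TT z.1 z.2 - z.1 * z.2) =
        fun z => Vc z.1 z.2 := by
      funext z; unfold Vc; ring
    rw [e1] at h
    convert h using 2
    · simp only []
      ring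
    · simp only []
      ring
  have ccont := S1_cccont h3 h2 hb hab ha
  have c1 : ContinuousAt (fun z : ℝ × ℝ => z.1) (a, b) := continuous_fst.continuousAt
  have c2 : ContinuousAt (fun z : ℝ × ℝ => z.2) (a, b) := continuous_snd.continuousAt
  have cL : ContinuousAt (fun z : ℝ × ℝ => Lc z.1 z.2) (a, b) := by
    unfold Lc
    exact (continuousAt_const.mul (c1.add c2)).sub (continuousAt_const.mul ccont)
  have ch : ContinuousAt (fun z : ℝ × ℝ => hc z.1 z.2) (a, b) := by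
    unfold hc
    exact (continuousAt_const.sub (((c1.sub c2).pow 2).div_const 2)).add ((continuousAt_const.mul ccont).mul (c1.add c2))
  obtain ⟨-, -, -, k1, k2, -⟩ := h2 hb hab ha
  have hpos : 0 < hc a b := S1_hcpos hb hab ha k1 k2
  have key := h6 (V := fun z => Vc z.1 z.2) (x := fun z => xx z.1 z.2) (L := fun z => Lc z.1 z.2)
    (h := fun z => hc z.1 z.2) (l := fun z => ll z.1 z.2) (p := (a, b))
    (S1_open.mem_nhds (show (a, b) ∈ {z : ℝ × ℝ | -1 < z.2 ∧ z.2 < z.1 ∧ z.1 < 1} from ⟨hb, hab, ha⟩)) dV dx cL ch hpos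
    (fun p₁ h₁ p₂ h₂ => hpair p₁.1 p₁.2 p₂.1 p₂.2 h₁.1 h₁.2.1 h₁.2.2 h₂.1 h₂.2.1 h₂.2.2)
  refine key.congr_fderiv (ContinuousLinearMap.ext fun v => ?_)
  simp only [ContinuousLinearMap.add_apply, ContinuousLinearMap.smul_apply, S1_LF_apply, smul_eq_mul]
  ring

theorem S1_fin {w1 w2 h A B R : ℝ} (hh : 0 < h) (e : w1 * A + w2 * B = R * h) : w1 / h * A + w2 / h * B = R := by
  have : w1 / h * A + w2 / h * B = (w1 * A + w2 * B) / h := by ring
  rw [this, e, mul_div_cancel_right₀ _ hh.ne']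

theorem S1_dl (h3 : HB3) (h2 : HB2)
    (h6 : ∀ {V x L h l : ℝ × ℝ → ℝ} {Ω : Set (ℝ × ℝ)} {p : ℝ × ℝ}, Ω ∈ 𝓝 p →
      ∀ {V' x' : ℝ × ℝ →L[ℝ] ℝ}, HasFDerivAt V V' p → HasFDerivAt x x' p →
      ContinuousAt L p → ContinuousAt h p → 0 < h p →
      (∀ p₁ ∈ Ω, ∀ p₂ ∈ Ω, V p₂ ≤ V p₁ - L p₁ * (x p₂ - x p₁) + h p₁ * (l p₂ - l p₁)) →
      HasFDerivAt l ((1 / h p) • (V' + L p • x')) p)
    (hpair : ∀ a b a' b' : ℝ, -1 < b → b < a → a < 1 → -1 < b' → b' < a' → a' < 1 →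
      Vc a' b' ≤ Vc a b - Lc a b * (xx a' b' - xx a b) + hc a b * (ll a' b' - ll a b))
    (p : ℝ × ℝ) (hp : 0 < p.2) :
    HasFDerivAt lf (LF (-2 * rf p * Xf p) (rf p * (1 + Xf p ^ 2))) p := by
  obtain ⟨hr, hA, hB, hG, ea, eb, eT, eq⟩ := S1_base h2 p hp
  obtain ⟨m1, m2, m3⟩ := S1_mem p hp
  have h := (h3 m1 m2 m3 rfl rfl rfl rfl rfl rfl rfl rfl).1
  have hd := S1_dll h3 h2 h6 hpair m1 m2 m3 h
  have hf := S1_hcomp hd (S1_daf p) (S1_dbf p)
  obtain ⟨-, -, -, k1, k2, k3⟩ := h2 m1 m2 m3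
  have hpos := S1_hcpos m1 m2 m3 k1 k2
  have eL : Lc (af p) (bf p) = -2 * (af p + bf p) - 4 * cc (af p) (bf p) := rfl
  have eh : hc (af p) (bf p) = 2 - (af p - bf p) ^ 2 / 2 + 2 * cc (af p) (bf p) * (af p + bf p) := rfl
  rw [eL, eh] at hf
  generalize cc (af p) (bf p) = c at hf k1 k2 k3 hpos
  rw [eT, eq] at hf k3
  rw [ea, eb] at hf k3 hpos
  rw [ea] at hA
  rw [eb] at hB
  have hP1 := S1_algP1 (X := Xf p) (G := Gf p) hr hA
  have hP2 := S1_algP2 (X := Xf p) (G := Gf p) hr hB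
  change HasFDerivAt (fun z => ll (af z) (bf z)) _ _ at hf
  have hc' : Gf p * (4 * c - 2 * nf p) * rf p = 2 * ((1 - nf p ^ 2 - rf p ^ 2) * Xf p - 2 * rf p * nf p) := by
    refine mul_left_cancel₀ hr.ne' ?_
    linear_combination k3
  have a1 := S1_algl1 rfl rfl hP1 hP2 hc'
  have a2 := S1_algl2 rfl rfl hP1 hP2 hc'
  refine hf.congr_fderiv ?_
  congr 1
  · refine S1_fin hpos ?_
    linear_combination (-1) * a1
  · refine S1_fin hpos ?_
    linear_combination a2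

end

end Pool.Agent.Helper974.StarQ.Star
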